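import Mathlib
import Pool.Agent.Lib.MP_551055_al.Trim.BT.DV
import Pool.Agent.Lib.MP_551055_al.Trim.BT.Mixed
import Pool.Agent.Lib.MP_551055_al.Trim.BT.Tree
import Pool.Agent.Lib.MP_551055_al.Trim.GL.Chars
import Pool.Agent.Lib.MP_551055_al.Trim.GL.Sub
import Pool.Agent.Lib.MP_551055_al.Trim.LS.Stmts
import Pool.Agent.Lib.MP_551055_al.Trim.MT.Defs
import Pool.Agent.Lib.MP_551055_al.Trim.RI.Stmts
import Pool.Agent.Lib.MP_551055_al.Trim.T4.Mods

/-!
# Projective representations of dimension two: the trees of the valuations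

`Γ → K` is a surjective homomorphism, `ρ : Γ → GL₂(L)` maps the kernel to scalar matrices. Then `K`
acts on the subdivided trees of the discrete valuations of `L`.
-/

set_option autoImplicit false

namespace Pool.Agent.Lib.MP_551055_al
end Pool.Agent.Lib.MP_551055_al

namespace Pool.Agent.Lib.MP_551055_al.LS
end Pool.Agent.Lib.MP_551055_al.LS

namespace Pool.Agent.Lib.MP_551055_al.BT
end Pool.Agent.Lib.MP_551055_al.BT

namespace Pool.Agent.Lib.MP_551055_al.GL
end Pool.Agent.Lib.MP_551055_al.GL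

namespace Pool.Agent.Lib.MP_551055_al.RO

open Pool.Agent.Lib.MP_551055_al

open Pool.Agent.Lib.MP_551055_al.LS

open Pool.Agent.Lib.MP_551055_al.BT

open Pool.Agent.Lib.MP_551055_al.GL (SV sd sact sd_treeAct HasTrees.all)

/-! ## Actions of quotients -/

section

variable {Γ K V : Type} [Group Γ] [Group K] [MulAction Γ V] (π : Γ →* K)
  (hπ : Function.Surjective π) (h : ∀ γ, π γ = 1 → ∀ x : V, γ • x = x)

include h in
theorem smul_eq_of_eq {γ δ : Γ} (hγ : π γ = π δ) (x : V) : γ • x = δ • x := by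
  have h1 : π (δ⁻¹ * γ) = 1 := by rw [map_mul, hγ, map_inv, inv_mul_cancel]
  have h2 := h _ h1 x
  rw [mul_smul, inv_smul_eq_iff] at h2
  exact h2

/-- The action of the quotient. -/
@[instance_reducible] noncomputable def qact : MulAction K V where
  smul k x := Function.surjInv hπ k • x
  one_smul x := h _ (Function.surjInv_eq hπ 1) x
  mul_smul a b x := by
    change Function.surjInv hπ (a * b) • x = Function.surjInv hπ a • Function.surjInv hπ b • x
    rw [← mul_smul]
    refine smul_eq_of_eq π h ?_ x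
    rw [map_mul, Function.surjInv_eq hπ, Function.surjInv_eq hπ, Function.surjInv_eq hπ]

theorem qact_smul (γ : Γ) (x : V) : (qact π hπ h).smul (π γ) x = γ • x :=
  smul_eq_of_eq π h (Function.surjInv_eq hπ (π γ)) x

theorem qact_tree {T : SimpleGraph V} (hT : TreeAct Γ V T) :
    @TreeAct K _ V (qact π hπ h) T :=
  @TreeAct.mk K _ V (qact π hπ h) T hT.tree
    (fun k u v huv => hT.adj (Function.surjInv hπ k) u v huv)
    fun k u v huv h1 => hT.inv (Function.surjInv hπ k) u v huv h1

end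

/-! ## Valuations -/

section

variable {L : Type} [Field L]

/-- The invariant of a projective transformation. -/
noncomputable def uu (g : GL2 L) : L := g.val.trace ^ 2 / g.val.det

theorem dv_scalar (v : DV L) (g : GL2 L) (c : L) (hg : g.val = c • 1) (x : v.Vt) : g • x = x := by
  induction x using QuotientGroup.induction_on with | H a => ?_
  have hc : c ≠ 0 := by
    rintro rfl
    refine DV.det_ne g ?_
    rw [hg, zero_smul, Matrix.det_zero]
  have e1 : g • ((a : GL2 L) : v.Vt) = ((g * a : GL2 L) : v.Vt) := rfl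
  have e2 : g * a = a * g := by
    refine Units.ext ?_
    rw [Units.val_mul, Units.val_mul, hg, smul_mul_assoc, one_mul, mul_smul_comm, mul_one]
  rw [e1, e2]
  refine QuotientGroup.eq.2 ?_
  rw [mul_inv_rev, mul_assoc, inv_mul_cancel, mul_one]
  refine v.H.inv_mem ?_
  rw [DV.mem_H]
  refine ⟨v.o c, fun i j => ?_, ?_⟩
  · rw [hg, Matrix.smul_apply, Matrix.one_apply]
    split_ifs
    · rw [smul_eq_mul, mul_one]
      exact Or.inr le_rfl
    · rw [smul_zero]
      exact v.ge_zero _
  · rw [hg, Matrix.det_smul, Matrix.det_one, mul_one, Fintype.card_fin, v.o_pow _ hc]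
    push_cast
    ring

theorem dv_uu (v : DV L) (g : GL2 L) (x : v.Vt) (hx : (g * g) • x = x) : v.ge 0 (uu g) := by
  have hd := DV.det_ne g
  obtain ⟨n, h1, h2⟩ : ∃ n : ℤ, v.ge n (g * g).val.trace ∧ v.o g.val.det = n := by
    induction x using QuotientGroup.induction_on with | H a => ?_
    have e1 : (g * g) • ((a : GL2 L) : v.Vt) = ((g * g * a : GL2 L) : v.Vt) := rfl
    rw [e1] at hx
    have h1 : a⁻¹ * (g * g * a) ∈ v.H := QuotientGroup.eq.1 hx.symm
    rw [DV.mem_H, ← mul_assoc] at h1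
    obtain ⟨n, h2, h3⟩ := h1
    rw [DV.det_conj, Units.val_mul, Matrix.det_mul, v.mul' _ _ hd hd] at h3
    refine ⟨n, ?_, by omega⟩
    rw [← DV.trace_conj a (g * g), Matrix.trace_fin_two]
    exact v.ge_add (h2 0 0) (h2 1 1)
  have h3 : g.val.trace ^ 2 = (g * g).val.trace + (g.val.det + g.val.det) := by
    rw [Units.val_mul, Matrix.trace_fin_two, Matrix.trace_fin_two, Matrix.det_fin_two,
      Matrix.mul_apply, Matrix.mul_apply, Fin.sum_univ_two, Fin.sum_univ_two]
    ring
  have h4 : v.ge n g.val.det := Or.inr h2.ge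
  have h5 : v.ge n (g.val.trace ^ 2) := by
    rw [h3]
    exact v.ge_add h1 (v.ge_add h4 h4)
  have h6 : v.ge (-n) (g.val.det)⁻¹ := Or.inr (by rw [v.o_inv _ hd, h2])
  have h7 := v.ge_mul h5 h6
  rw [add_neg_cancel] at h7
  unfold uu
  rw [div_eq_mul_inv]
  exact h7

/-- An element which fixes a point of the subdivision. -/
theorem exists_sq_fixed {G V : Type} [Group G] [MulAction G V] {T : SimpleGraph V}
    (h : ∀ (g : G) u v, T.Adj u v → T.Adj (g • u) (g • v)) (x : SV T) :
    ∃ v : V, ∀ g : G, (sact h).smul g x = x → (g * g) • v = v := by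
  rcases x with x | ⟨e, he⟩
  · refine ⟨x, fun g hg => ?_⟩
    have h1 : g • x = x := Sum.inl.inj hg
    rw [mul_smul, h1, h1]
  · induction e with | _ a b => ?_
    refine ⟨a, fun g hg => ?_⟩
    have h1 : s(g • a, g • b) = s(a, b) := congrArg Subtype.val (Sum.inr.inj hg)
    rcases Sym2.eq_iff.1 h1 with ⟨h2, -⟩ | ⟨h2, h3⟩
    · rw [mul_smul, h2, h2]
    · rw [mul_smul, h2, h3]

/-- **The tree of a valuation.** -/
theorem hasTrees_dv (v : DV L) {Γ K : Type} [Group Γ] [Group K] (π : Γ →* K)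
    (hπ : Function.Surjective π) (ρ : Γ →* GL2 L)
    (hker : ∀ γ, π γ = 1 → ∃ c : L, (ρ γ).val = c • 1) :
    HasTrees K fun E => ∀ γ, π γ ∈ E → v.ge 0 (uu (ρ γ)) := by
  let act : MulAction Γ v.Vt := MulAction.compHom v.Vt ρ
  have hadj : ∀ (g : Γ) (u w : v.Vt), v.T.Adj u w → v.T.Adj (g • u) (g • w) :=
    fun g u w h => v.adj_smul (ρ g) u w h
  let act' : MulAction Γ (SV v.T) := sact hadj
  have hfix : ∀ γ, π γ = 1 → ∀ x : v.Vt, γ • x = x := by
    intro γ hγ x
    obtain ⟨c, hc⟩ := hker γ hγ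
    exact dv_scalar v (ρ γ) c hc x
  have hfix' : ∀ γ, π γ = 1 → ∀ x : SV v.T, γ • x = x := by
    rintro γ hγ (x | ⟨e, he⟩)
    · exact congrArg Sum.inl (hfix γ hγ x)
    · refine congrArg Sum.inr (Subtype.ext ?_)
      change e.map (fun v => γ • v) = e
      have h1 : (fun x : v.Vt => γ • x) = id := funext fun x => hfix γ hγ x
      rw [h1]
      exact congrFun Sym2.map_id' e
  refine ⟨Unit, inferInstance, fun _ => SV v.T, fun _ => qact π hπ hfix', fun _ => sd v.T,
    fun _ => qact_tree π hπ hfix' (sd_treeAct v.T_isTree hadj), fun x E hE γ hγ => ?_⟩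
  obtain ⟨w, hw⟩ := exists_sq_fixed hadj (x ())
  have h1 : (qact π hπ hfix').smul (π γ) (x ()) = x () := hE _ hγ ()
  have h2 : γ • x () = x () := (qact_smul π hπ hfix' γ (x ())).symm.trans h1
  refine dv_uu v (ρ γ) w ?_
  have h3 : ρ (γ * γ) • w = w := hw γ h2
  rwa [map_mul] at h3

end

end Pool.Agent.Lib.MP_551055_al.RO
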