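import Mathlib
import Pool.Agent.Lib.MP_551055_al.Trim.BT.DV
import Pool.Agent.Lib.MP_551055_al.Trim.BT.Mixed
import Pool.Agent.Lib.MP_551055_al.Trim.BT.PAdic
import Pool.Agent.Lib.MP_551055_al.Trim.BT.Places
import Pool.Agent.Lib.MP_551055_al.Trim.BT.Tree
import Pool.Agent.Lib.MP_551055_al.Trim.BT.Val
import Pool.Agent.Lib.MP_551055_al.Trim.GL.Chars
import Pool.Agent.Lib.MP_551055_al.Trim.GL.TreesF
import Pool.Agent.Lib.MP_551055_al.Trim.LS.Stmts
import Pool.Agent.Lib.MP_551055_al.Trim.MT.K1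
import Pool.Agent.Lib.MP_551055_al.Trim.RO.Proj
import Pool.Agent.Lib.MP_551055_al.Trim.T4.Ind0

/-!
# Projective representations of dimension two: algebraic integers

`Γ` is finitely generated. There are finitely many trees with an action of `K` such that the
invariants `tr² / det` of the elements fixing a tuple of vertices are algebraic integers.
-/

set_option autoImplicit false

namespace Pool.Agent.Lib.MP_551055_al
end Pool.Agent.Lib.MP_551055_al

namespace Pool.Agent.Lib.MP_551055_al.LS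
end Pool.Agent.Lib.MP_551055_al.LS

namespace Pool.Agent.Lib.MP_551055_al.BT
end Pool.Agent.Lib.MP_551055_al.BT

namespace Pool.Agent.Lib.MP_551055_al.GL
end Pool.Agent.Lib.MP_551055_al.GL

namespace IsDedekindDomain
end IsDedekindDomain

namespace Pool.Agent.Lib.MP_551055_al.RO

open Pool.Agent.Lib.MP_551055_al

open Pool.Agent.Lib.MP_551055_al.LS

open Pool.Agent.Lib.MP_551055_al.BT

open Pool.Agent.Lib.MP_551055_al.GL (HasTrees.all exists_entries exists_subalgebra)

open IsDedekindDomain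

/-- The invariant over a ring. -/
noncomputable def ua {A : Type} [CommRing A] (g : Matrix.GeneralLinearGroup (Fin 2) A) : A :=
  g.val.trace ^ 2 * (g⁻¹).val.det

theorem uu_eq_ua {L : Type} [Field L] (g : GL2 L) : uu g = ua g := by
  unfold uu ua
  have h1 : (g⁻¹).val.det * g.val.det = 1 := by
    rw [← Matrix.det_mul, ← Units.val_mul, inv_mul_cancel, Units.val_one, Matrix.det_one]
  rw [div_eq_mul_inv, eq_inv_of_mul_eq_one_left h1]

theorem ua_map {A B : Type} [CommRing A] [CommRing B] (f : A →+* B)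
    (g : Matrix.GeneralLinearGroup (Fin 2) A) :
    ua (Matrix.GeneralLinearGroup.map f g) = f (ua g) := by
  have hval : ∀ g : Matrix.GeneralLinearGroup (Fin 2) A,
      (Matrix.GeneralLinearGroup.map f g).val = g.val.map f := fun g => rfl
  unfold ua
  rw [← map_inv, hval, hval, map_mul, map_pow, Matrix.trace_fin_two, Matrix.trace_fin_two,
    map_add, RingHom.map_det]
  rfl

section

variable {Γ K : Type} [Group Γ] [Group K] (π : Γ →* K) (hπ : Function.Surjective π)

include hπ

/-- **The places of the function field.** -/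
theorem hasTrees_function (A : Type) [CommRing A] [IsDomain A] [Algebra ℚ A] (S : Finset A)
    (hS : Algebra.adjoin ℚ (S : Set A) = ⊤) (ρ : Γ →* Matrix.GeneralLinearGroup (Fin 2) A)
    (hker : ∀ γ, π γ = 1 → ∃ c : A, (ρ γ).val = c • 1) :
    HasTrees K fun E => ∀ γ, π γ ∈ E → IsIntegral ℚ (ua (ρ γ)) := by
  classical
  have hft : Algebra.FiniteType ℚ A := ⟨⟨S, hS⟩⟩
  obtain ⟨L, i1, i2, i3⟩ : ∃ (L : Type) (_ : Field L) (_ : Algebra A L), IsFractionRing A L :=
    ⟨FractionRing A, inferInstance, inferInstance, inferInstance⟩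
  let i4 : Algebra ℚ L := ((algebraMap A L).comp (algebraMap ℚ A)).toAlgebra
  have i5 : IsScalarTower ℚ A L := IsScalarTower.of_algebraMap_eq fun _ => rfl
  have h2 : Algebra.EssFiniteType A L := Algebra.EssFiniteType.of_isLocalization _ (nonZeroDivisors A)
  have h3 : Algebra.EssFiniteType ℚ L := Algebra.EssFiniteType.comp ℚ A L
  obtain ⟨W, hW, hW'⟩ := exists_places_perfect ℚ L (S.image (algebraMap A L))
  have hinj : Function.Injective (algebraMap A L) := IsFractionRing.injective A L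
  let ρ' : Γ →* GL2 L := (Matrix.GeneralLinearGroup.map (algebraMap A L)).comp ρ
  have hval : ∀ g, (ρ' g).val = (ρ g).val.map (algebraMap A L) := fun g => rfl
  have hker' : ∀ γ, π γ = 1 → ∃ c : L, (ρ' γ).val = c • 1 := by
    intro γ hγ
    obtain ⟨c, hc⟩ := hker γ hγ
    refine ⟨algebraMap A L c, ?_⟩
    rw [hval, hc]
    ext i j
    rw [Matrix.map_apply, Matrix.smul_apply, Matrix.smul_apply, smul_eq_mul, smul_eq_mul, map_mul,
      Matrix.one_apply, Matrix.one_apply]
    split_ifs <;> simp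
  have h5 : ∀ a : A, algebraMap A L a ∈
      Algebra.adjoin ℚ ((S.image (algebraMap A L) : Finset L) : Set L) := by
    intro a
    have ha : a ∈ Algebra.adjoin ℚ (S : Set A) := by rw [hS]; trivial
    induction ha using Algebra.adjoin_induction with
    | mem x hx =>
      refine Algebra.subset_adjoin ?_
      rw [Finset.coe_image]
      exact ⟨x, hx, rfl⟩
    | algebraMap r =>
      rw [← IsScalarTower.algebraMap_apply]
      exact Subalgebra.algebraMap_mem _ r
    | add x y _ _ h1 h2 => rw [map_add]; exact add_mem h1 h2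
    | mul x y _ _ h1 h2 => rw [map_mul]; exact mul_mem h1 h2
  have : Finite W := hW
  refine (HasTrees.all fun v : W => hasTrees_dv v.1 π hπ ρ' hker').mono fun H hH γ hγ => ?_
  refine (isIntegral_algebraMap_iff hinj).1 (hW' _ (h5 _) fun v hv => ?_)
  have h6 := hH ⟨v, hv⟩ γ hγ
  rw [uu_eq_ua] at h6
  have h7 : ua (ρ' γ) = algebraMap A L (ua (ρ γ)) := ua_map (algebraMap A L) (ρ γ)
  rwa [h7] at h6

/-- **Number fields.** -/
theorem hasTrees_number (k : Type) [Field k] [NumberField k] [Group.FG Γ] (ρ : Γ →* GL2 k)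
    (hker : ∀ γ, π γ = 1 → ∃ c : k, (ρ γ).val = c • 1) :
    HasTrees K fun E => ∀ γ, π γ ∈ E → IsIntegral ℤ (ua (ρ γ)) := by
  classical
  obtain ⟨S, hS⟩ := exists_entries ρ
  obtain ⟨W, hW⟩ : ∃ W : Set (HeightOneSpectrum (NumberField.RingOfIntegers k)),
    W = {w | ∃ s ∈ S, 1 < w.valuation k s} := ⟨_, rfl⟩
  have hWf : Finite W := by
    rw [hW]
    exact finite_poles S
  refine (HasTrees.all fun w : W => hasTrees_dv (DV.ofSpec (K := k) w.1) π hπ ρ hker).mono
    fun H hH γ hγ => ?_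
  have key : ∀ w : HeightOneSpectrum (NumberField.RingOfIntegers k),
      w.valuation k (ua (ρ γ)) ≤ 1 := by
    intro w
    by_cases hw : w ∈ W
    · rw [← uu_eq_ua]
      exact (DV.ge_ofSpec w _).1 (hH ⟨w, hw⟩ γ hγ)
    · have hw' : ∀ s ∈ S, w.valuation k s ≤ 1 := by
        rw [hW] at hw
        intro s hs
        by_contra hcon
        exact hw ⟨s, hs, not_le.1 hcon⟩
      rw [← DV.ge_ofSpec]
      have hent : ∀ g i j, (DV.ofSpec (K := k) w).ge 0 ((ρ g).val i j) := fun g i j =>
        DV.ge_closure _ (S : Set k) (fun s hs => (DV.ge_ofSpec w s).2 (hw' s hs)) _ (hS g i j)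
      have hmul : ∀ {x y : k}, (DV.ofSpec (K := k) w).ge 0 x → (DV.ofSpec (K := k) w).ge 0 y →
          (DV.ofSpec (K := k) w).ge 0 (x * y) := by
        intro x y hx hy
        have := (DV.ofSpec (K := k) w).ge_mul hx hy
        rwa [add_zero] at this
      unfold ua
      refine hmul ((DV.ofSpec (K := k) w).ge_pow ?_ 2) ?_
      · rw [Matrix.trace_fin_two]
        exact (DV.ofSpec (K := k) w).ge_add (hent γ 0 0) (hent γ 1 1)
      · rw [← map_inv, Matrix.det_fin_two]
        exact (DV.ofSpec (K := k) w).ge_sub (hmul (hent _ 0 0) (hent _ 1 1))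
          (hmul (hent _ 0 1) (hent _ 1 0))
  obtain ⟨b, hb⟩ := HeightOneSpectrum.mem_integers_of_valuation_le_one k _ key
  rw [← hb]
  exact b.isIntegral_coe

omit hπ in
/-- An algebraic element of a domain is an algebraic integer if its specialisation is. -/
theorem isIntegral_of_point {A k : Type} [CommRing A] [IsDomain A] [Algebra ℚ A] [Field k]
    [Algebra ℚ k] (s : A →ₐ[ℚ] k) (a : A) (h1 : IsIntegral ℚ a) (h2 : IsIntegral ℤ (s a)) :
    IsIntegral ℤ a := by
  obtain ⟨f, hf, hf0⟩ := h2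
  have h3 : minpoly ℚ (s a) = minpoly ℚ a := by
    refine (minpoly.eq_of_irreducible_of_monic (minpoly.irreducible h1) ?_ (minpoly.monic h1)).symm
    rw [Polynomial.aeval_algHom_apply, minpoly.aeval, map_zero]
  have h4 : minpoly ℚ (s a) ∣ f.map (Int.castRingHom ℚ) := by
    refine minpoly.dvd _ _ ?_
    rw [Polynomial.aeval_def, Polynomial.eval₂_map]
    have e : (algebraMap ℚ k).comp (Int.castRingHom ℚ) = algebraMap ℤ k := RingHom.ext_int _ _
    rw [e]
    exact hf0
  rw [h3] at h4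
  obtain ⟨g, hg⟩ := h4
  refine ⟨f, hf, ?_⟩
  have h5 : Polynomial.aeval a (f.map (Int.castRingHom ℚ)) = 0 := by
    rw [hg, map_mul, minpoly.aeval, zero_mul]
  rw [Polynomial.aeval_def, Polynomial.eval₂_map] at h5
  have e : (algebraMap ℚ A).comp (Int.castRingHom ℚ) = algebraMap ℤ A := RingHom.ext_int _ _
  rw [e] at h5
  exact h5

omit hπ in
/-- Points over number fields. -/
theorem exists_number_point (A : Type) [CommRing A] [Nontrivial A] [Algebra ℚ A]
    [Algebra.FiniteType ℚ A] :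
    ∃ (k : Type) (_ : Field k) (_ : NumberField k), Nonempty (A →ₐ[ℚ] k) := by
  obtain ⟨m, hm⟩ := Ideal.exists_maximal A
  obtain ⟨k, ik, f, hf⟩ : ∃ (k : Type) (_ : Field k) (f : A →+* k), Function.Surjective f :=
    ⟨A ⧸ m, Ideal.Quotient.field m, Ideal.Quotient.mk m, Ideal.Quotient.mk_surjective⟩
  have hc : CharZero k := by
    let i1 : Algebra ℚ k := (f.comp (algebraMap ℚ A)).toAlgebra
    exact algebraRat.charZero k
  have hft : Algebra.FiniteType ℚ k := Algebra.FiniteType.of_surjective f.toRatAlgHom hf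
  have hfin : Module.Finite ℚ k := finite_of_finite_type_of_isJacobsonRing ℚ k
  exact ⟨k, ik, { to_charZero := hc, to_finiteDimensional := hfin }, ⟨f.toRatAlgHom⟩⟩

/-- **Algebraic integers.** -/
theorem hasTrees_int (L : Type) [Field L] [Algebra ℚ L] [Group.FG Γ] (ρ : Γ →* GL2 L)
    (hker : ∀ γ, π γ = 1 → ∃ c : L, (ρ γ).val = c • 1) :
    HasTrees K fun E => ∀ γ, π γ ∈ E → IsIntegral ℤ (uu (ρ γ)) := by
  obtain ⟨A, ρA, hA, hρA⟩ := exists_subalgebra L ρ
  obtain ⟨S, hS⟩ : ∃ S : Finset A, Algebra.adjoin ℚ (S : Set A) = ⊤ := by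
    have := (Subalgebra.fg_iff_finiteType A).1 hA
    exact this.out
  have hkerA : ∀ γ, π γ = 1 → ∃ c : A, (ρA γ).val = c • 1 := by
    intro γ hγ
    obtain ⟨c, hc⟩ := hker γ hγ
    rw [← hρA] at hc
    have h1 : ∀ i j, (((ρA γ).val i j : A) : L) = c • (1 : Matrix (Fin 2) (Fin 2) L) i j :=
      fun i j => congrFun (congrFun hc i) j
    refine ⟨(ρA γ).val 0 0, ?_⟩
    have e00 := h1 0 0
    have e01 := h1 0 1
    have e10 := h1 1 0
    have e11 := h1 1 1
    rw [Matrix.one_apply_eq, smul_eq_mul, mul_one] at e00 e11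
    rw [Matrix.one_apply_ne (by decide), smul_zero] at e01 e10
    refine Matrix.ext fun i j => Subtype.ext ?_
    rw [Matrix.smul_apply, smul_eq_mul, Matrix.one_apply]
    fin_cases i <;> fin_cases j
    · simp
    · simpa using e01
    · simpa using e10
    · simpa using e11.trans e00.symm
  have hft : Algebra.FiniteType ℚ A := ⟨⟨S, hS⟩⟩
  obtain ⟨k, ik, hk, ⟨s⟩⟩ := exists_number_point A
  obtain ⟨θ, hθ⟩ : ∃ θ : Γ →* GL2 k,
      θ = (Matrix.GeneralLinearGroup.map (s : A →+* k)).comp ρA := ⟨_, rfl⟩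
  have hkerθ : ∀ γ, π γ = 1 → ∃ c : k, (θ γ).val = c • 1 := by
    intro γ hγ
    obtain ⟨c, hc⟩ := hkerA γ hγ
    refine ⟨s c, ?_⟩
    have hval : (θ γ).val = (ρA γ).val.map s := by rw [hθ]; rfl
    rw [hval, hc]
    refine Matrix.ext fun i j => ?_
    rw [Matrix.map_apply, Matrix.smul_apply, Matrix.smul_apply, smul_eq_mul, smul_eq_mul, map_mul,
      Matrix.one_apply, Matrix.one_apply]
    split_ifs
    · rw [map_one]
    · rw [map_zero]
  refine ((hasTrees_function π hπ A S hS ρA hkerA).and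
    (hasTrees_number π hπ k θ hkerθ)).mono fun E ⟨h1, h2⟩ γ hγ => ?_
  have h3 := h2 γ hγ
  have h4 : ua (θ γ) = s (ua (ρA γ)) := by
    rw [hθ]
    exact ua_map (s : A →+* k) (ρA γ)
  rw [h4] at h3
  have h5 := isIntegral_of_point s _ (h1 γ hγ) h3
  have h6 : uu (ρ γ) = ((ua (ρA γ) : A) : L) := by
    have h7 : Matrix.GeneralLinearGroup.map (A.val : A →+* L) (ρA γ) = ρ γ :=
      Units.ext (hρA γ)
    rw [uu_eq_ua, ← h7, ua_map]
    rfl
  rw [h6]
  exact h5.map ((A.val : A →+* L).toIntAlgHom)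

end

end Pool.Agent.Lib.MP_551055_al.RO
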