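import Mathlib
import Pool.Agent.Lib.MP_551055_al.Trim.BT.FinOrd
import Pool.Agent.Lib.MP_551055_al.Trim.BT.Tree

/-!
# Kronecker's theorem: projective transformations with totally bounded invariant
-/

set_option autoImplicit false

namespace Pool.Agent.Lib.MP_551055_al.BT
end Pool.Agent.Lib.MP_551055_al.BT

namespace Pool.Agent.Lib.MP_551055_al.RO

open Pool.Agent.Lib.MP_551055_al.BT

/-- Complex numbers. -/
theorem norm_eq_one_of_real (z : ℂ) (s : ℝ) (hs : s ^ 2 ≤ 4) (h : z ^ 2 - s * z + 1 = 0) :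
    ‖z‖ = 1 := by
  have hre := congrArg Complex.re h
  have him := congrArg Complex.im h
  simp only [pow_two, Complex.add_re, Complex.sub_re, Complex.mul_re, Complex.ofReal_re,
    Complex.ofReal_im, Complex.one_re, Complex.zero_re, zero_mul, sub_zero, Complex.add_im,
    Complex.sub_im, Complex.mul_im, Complex.one_im, Complex.zero_im, add_zero] at hre him
  have h1 : z.im * (2 * z.re - s) = 0 := by linear_combination him
  have h2 : z.re * z.re + z.im * z.im = 1 := by
    rcases mul_eq_zero.1 h1 with h3 | h3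
    · rw [h3] at hre ⊢
      have h4 : (z.re - s / 2) ^ 2 = s ^ 2 / 4 - 1 := by linear_combination hre
      have h5 : (z.re - s / 2) ^ 2 = 0 := le_antisymm (by rw [h4]; linarith) (sq_nonneg _)
      have h6 : z.re = s / 2 := by
        have := pow_eq_zero_iff (two_ne_zero) |>.1 h5
        linarith
      have h7 : s ^ 2 = 4 := by linarith [h4.symm.trans h5]
      rw [h6]
      linear_combination h7 / 4
    · have h4 : s = 2 * z.re := by linarith
      rw [h4] at hre
      linear_combination -hre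
  have h3 : ‖z‖ ^ 2 = 1 := by
    rw [← Complex.normSq_eq_norm_sq, Complex.normSq_apply, h2]
  exact (pow_eq_one_iff_of_nonneg (norm_nonneg z) two_ne_zero).1 h3

/-- **Kronecker.** An algebraic integer all whose conjugates lie in `[0, 4]` is `2 + ζ + ζ⁻¹` with a
root of unity `ζ`. -/
theorem exists_root {L : Type} [Field L] [IsAlgClosed L] [Algebra ℚ L] (u : L)
    (hu : IsIntegral ℤ u)
    (hpos : ∀ z : ℂ, Polynomial.aeval z (minpoly ℚ u) = 0 → z.im = 0 ∧ 0 ≤ z.re ∧ z.re ≤ 4) :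
    ∃ (ζ : L) (n : ℕ), 0 < n ∧ ζ ^ n = 1 ∧ u * ζ = (ζ + 1) ^ 2 := by
  have : CharZero L := algebraRat.charZero L
  obtain ⟨ζ, hζ⟩ : ∃ ζ : L, ζ ^ 2 - (u - 2) * ζ + 1 = 0 := by
    obtain ⟨ζ, hζ⟩ := IsAlgClosed.exists_root
      (Polynomial.X ^ 2 - Polynomial.C (u - 2) * Polynomial.X + 1 : Polynomial L) (by
        have h1 : (Polynomial.X ^ 2 - Polynomial.C (u - 2) * Polynomial.X + 1 :
            Polynomial L).degree = 2 := by compute_degree!
        rw [h1]
        norm_num)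
    refine ⟨ζ, ?_⟩
    rw [Polynomial.IsRoot.def] at hζ
    simpa using hζ
  have hint : IsIntegral ℤ ζ := by
    have h2 : IsIntegral (integralClosure ℤ L) ζ := by
      have hu2 : u - 2 ∈ integralClosure ℤ L := by
        refine sub_mem hu ?_
        exact ofNat_mem _ 2
      refine ⟨Polynomial.X ^ 2 - Polynomial.C (⟨u - 2, hu2⟩ : integralClosure ℤ L) *
        Polynomial.X + 1, ?_, ?_⟩
      · monicity!
      · simp only [Polynomial.eval₂_add, Polynomial.eval₂_sub, Polynomial.eval₂_mul,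
          Polynomial.eval₂_pow, Polynomial.eval₂_X, Polynomial.eval₂_C, Polynomial.eval₂_one]
        exact hζ
    exact isIntegral_trans ζ h2
  have hint' : IsIntegral ℚ ζ := hint.tower_top
  have hfin : FiniteDimensional ℚ (IntermediateField.adjoin ℚ {ζ}) :=
    IntermediateField.adjoin.finiteDimensional hint'
  obtain ⟨M, hM⟩ : ∃ M : IntermediateField ℚ L, M = IntermediateField.adjoin ℚ {ζ} := ⟨_, rfl⟩
  have hζM : ζ ∈ M := by
    rw [hM]
    exact IntermediateField.mem_adjoin_simple_self ℚ ζ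
  rw [← hM] at hfin
  have hnum : NumberField M :=
    @NumberField.of_module_finite ℚ M _ _ _ (IntermediateField.algebra' M) hfin
  have hζ0 : ζ ≠ 0 := by
    rintro rfl
    simp at hζ
  let x : M := ⟨ζ, hζM⟩
  have hx0 : x ≠ 0 := fun h => hζ0 (congrArg Subtype.val h)
  have hxi : IsIntegral ℤ x :=
    (isIntegral_algebraMap_iff (A := M) (B := L) (algebraMap M L).injective).1 hint
  -- the invariant
  let t : M := (x + 1) ^ 2 / x
  have ht : (t : L) = u := by
    change (ζ + 1) ^ 2 / ζ = u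
    rw [div_eq_iff hζ0]
    linear_combination hζ
  have hmin : minpoly ℚ t = minpoly ℚ u := by
    rw [← ht]
    exact (minpoly.algebraMap_eq (algebraMap M L).injective t).symm
  obtain ⟨n, hn, hn1⟩ := NumberField.Embeddings.pow_eq_one_of_norm_eq_one M ℂ hxi (by
    intro φ
    have h1 : Polynomial.aeval (φ t) (minpoly ℚ t) = 0 := by
      have h2 := Polynomial.aeval_algHom_apply φ.toRatAlgHom t (minpoly ℚ t)
      rw [minpoly.aeval, map_zero] at h2
      exact h2
    rw [hmin] at h1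
    obtain ⟨h2, h3, h4⟩ := hpos _ h1
    have h5 : φ t = ((φ t).re : ℂ) := Complex.ext rfl (by rw [h2]; simp)
    refine norm_eq_one_of_real (φ x) ((φ t).re - 2) ?_ ?_
    · nlinarith
    · have h6 : x ^ 2 - (t - 2) * x + 1 = 0 := by
        have h7 : t * x = (x + 1) ^ 2 := div_mul_cancel₀ _ hx0
        linear_combination -h7
      have h8 := congrArg φ h6
      rw [map_add, map_sub, map_mul, map_sub, map_pow, map_one, map_zero, map_ofNat, h5] at h8
      push_cast
      exact h8)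
  refine ⟨ζ, n, hn, congrArg Subtype.val hn1, ?_⟩
  linear_combination -hζ

/-- **Powers.** -/
theorem exists_pow_scalar {L : Type} [Field L] (g : GL2 L) (ζ : L) (n : ℕ) (hn : 0 < n)
    (hζ : ζ ^ n = 1) (hu : g.val.trace ^ 2 / g.val.det * ζ = (ζ + 1) ^ 2)
    (h4 : g.val.trace ^ 2 / g.val.det = 4 → ∃ c : L, g.val = c • 1) :
    ∃ m : ℕ, 0 < m ∧ ∃ c : L, (g ^ m).val = c • 1 := by
  have hd := DV.det_ne g
  have hζ0 : ζ ≠ 0 := by
    rintro rfl
    rw [zero_pow hn.ne'] at hζ
    exact zero_ne_one hζ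
  obtain ⟨M, hM⟩ : ∃ M, M = g.val := ⟨_, rfl⟩
  obtain ⟨τ, hτ⟩ : ∃ τ, τ = M.trace := ⟨_, rfl⟩
  obtain ⟨d, hdd⟩ : ∃ d, d = M.det := ⟨_, rfl⟩
  rw [← hM] at hu h4 hd
  rw [← hdd] at hd hu h4
  rw [← hτ] at hu h4
  have hsq : M * M = τ • M - d • (1 : Matrix (Fin 2) (Fin 2) L) := by
    rw [hτ, hdd]
    exact sq_eq M
  have hu' : τ ^ 2 * ζ = d * (ζ + 1) ^ 2 := by
    rw [← hu]
    field_simp
  by_cases h1 : ζ = 1
  · rw [h1] at hu
    obtain ⟨c, hc⟩ := h4 (by linear_combination hu)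
    exact ⟨1, one_pos, c, by rw [pow_one, ← hM, hc]⟩
  by_cases h2 : ζ = -1
  · have h3 : τ = 0 := by
      rw [h2] at hu'
      have : τ ^ 2 = 0 := by linear_combination -hu'
      exact pow_eq_zero_iff two_ne_zero |>.1 this
    refine ⟨2, two_pos, -d, ?_⟩
    rw [Units.val_pow_eq_pow_val, pow_two, ← hM, hsq, h3, zero_smul, zero_sub, neg_smul]
  -- the general case
  have h3 : ζ - ζ⁻¹ ≠ 0 := by
    intro h0
    have h5 : ζ ^ 2 = 1 := by
      have h6 : ζ * (ζ - ζ⁻¹) = 0 := by rw [h0, mul_zero]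
      rw [mul_sub, mul_inv_cancel₀ hζ0] at h6
      linear_combination h6
    have h6 : (ζ - 1) * (ζ + 1) = 0 := by linear_combination h5
    rcases mul_eq_zero.1 h6 with h7 | h7
    · exact h1 (sub_eq_zero.1 h7)
    · exact h2 (eq_neg_of_add_eq_zero_left h7)
  obtain ⟨B, hB⟩ : ∃ B : Matrix (Fin 2) (Fin 2) L, B = d⁻¹ • (M * M) := ⟨_, rfl⟩
  have hBM : ∀ m : ℕ, (M * M) ^ m = d ^ m • B ^ m := by
    intro m
    rw [hB, smul_pow, smul_smul, ← mul_pow, mul_inv_cancel₀ hd, one_pow, one_smul]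
  have hch : (B - ζ • 1) * (B - ζ⁻¹ • 1) = 0 := by
    have hMM : (M * M) * (M * M) = (τ ^ 2 - 2 * d) • (M * M) - (d ^ 2) • 1 := by
      have e1 : (M * M) * M = (τ ^ 2 - d) • M - (τ * d) • (1 : Matrix (Fin 2) (Fin 2) L) := by
        rw [hsq, sub_mul, smul_mul_assoc, hsq, smul_mul_assoc, one_mul]
        module
      calc (M * M) * (M * M) = ((M * M) * M) * M := (mul_assoc (M * M) M M).symm
        _ = (τ ^ 2 - d) • (M * M) - (τ * d) • M := by
          rw [e1, sub_mul, smul_mul_assoc, smul_mul_assoc, one_mul]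
        _ = (τ ^ 2 - 2 * d) • (M * M) - (d ^ 2) • 1 := by
          rw [hsq]
          module
    have e2 : B * B = ((τ ^ 2 - 2 * d) / d) • B - 1 := by
      rw [hB, smul_mul_assoc, mul_smul_comm, hMM, smul_sub, smul_sub, smul_smul, smul_smul,
        smul_smul, smul_smul, smul_smul]
      have e3 : d⁻¹ * d⁻¹ * d ^ 2 = 1 := by field_simp
      have e4 : d⁻¹ * d⁻¹ * (τ ^ 2 - 2 * d) = (τ ^ 2 - 2 * d) / d * d⁻¹ := by
        field_simp
      rw [e3, e4, one_smul]
    have e5 : (τ ^ 2 - 2 * d) / d = ζ + ζ⁻¹ := by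
      field_simp
      linear_combination hu'
    rw [e5] at e2
    have e6 : (B - ζ • 1) * (B - ζ⁻¹ • 1) =
        B * B - (ζ + ζ⁻¹) • B + (ζ * ζ⁻¹) • (1 : Matrix (Fin 2) (Fin 2) L) := by
      rw [sub_mul, mul_sub, mul_sub, mul_smul_comm, mul_one, smul_mul_assoc, one_mul,
        smul_mul_assoc, one_mul]
      module
    rw [e6, e2, mul_inv_cancel₀ hζ0, one_smul]
    module
  have hpow : B ^ n = 1 := by
    have h5 : (Polynomial.X - Polynomial.C ζ) * (Polynomial.X - Polynomial.C ζ⁻¹) ∣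
        (Polynomial.X ^ n - 1 : Polynomial L) := by
      refine IsCoprime.mul_dvd ?_ ?_ ?_
      · refine Polynomial.isCoprime_X_sub_C_of_isUnit_sub ?_
        exact isUnit_iff_ne_zero.2 h3
      · rw [Polynomial.dvd_iff_isRoot]
        simp [hζ]
      · rw [Polynomial.dvd_iff_isRoot]
        simp [hζ]
    obtain ⟨q, hq⟩ := h5
    have h6 := congrArg (Polynomial.aeval B) hq
    simp only [map_sub, map_pow, map_one, map_mul, Polynomial.aeval_X, Polynomial.aeval_C] at h6
    have h7 : (algebraMap L (Matrix (Fin 2) (Fin 2) L)) ζ = ζ • 1 := Algebra.algebraMap_eq_smul_one ζ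
    have h8 : (algebraMap L (Matrix (Fin 2) (Fin 2) L)) ζ⁻¹ = ζ⁻¹ • 1 :=
      Algebra.algebraMap_eq_smul_one ζ⁻¹
    rw [h7, h8, hch, zero_mul] at h6
    exact sub_eq_zero.1 h6
  refine ⟨2 * n, Nat.mul_pos two_pos hn, d ^ n, ?_⟩
  rw [Units.val_pow_eq_pow_val, pow_mul, pow_two, ← hM, hBM, hpow]

end Pool.Agent.Lib.MP_551055_al.RO
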