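import Mathlib

/-!
# Rotations of three-dimensional space and quaternions
-/

set_option autoImplicit false

namespace Pool.Agent.Lib.MP_551055_al.RO

open Matrix

section

variable {F : Type} [Field F]

/-- Four times the symmetric matrix `q qᵀ / N(q)` of the quaternion of a rotation. -/
def QQ (a : Matrix (Fin 3) (Fin 3) F) : Matrix (Fin 4) (Fin 4) F :=
  !![1 + a 0 0 + a 1 1 + a 2 2, a 2 1 - a 1 2, a 0 2 - a 2 0, a 1 0 - a 0 1;
     a 2 1 - a 1 2, 1 + a 0 0 - a 1 1 - a 2 2, a 0 1 + a 1 0, a 0 2 + a 2 0;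
     a 0 2 - a 2 0, a 0 1 + a 1 0, 1 - a 0 0 + a 1 1 - a 2 2, a 1 2 + a 2 1;
     a 1 0 - a 0 1, a 0 2 + a 2 0, a 1 2 + a 2 1, 1 - a 0 0 - a 1 1 + a 2 2]

/-- The matrix has rank one. -/
theorem QQ_rank (a : Matrix (Fin 3) (Fin 3) F) (h : a * aᵀ = 1) (hd : a.det = 1)
    (k i j : Fin 4) : QQ a k k * QQ a i j = QQ a k i * QQ a k j := by
  have hT : aᵀ * a = 1 := mul_eq_one_comm.1 h
  have hadj : a.adjugate = aᵀ := by
    have h1 : a * a.adjugate = 1 := by rw [Matrix.mul_adjugate, hd, one_smul]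
    calc a.adjugate = (aᵀ * a) * a.adjugate := by rw [hT, one_mul]
      _ = aᵀ := by rw [mul_assoc, h1, mul_one]
  rw [Matrix.adjugate_fin_three] at hadj
  have r00 : a 0 0 * a 0 0 + a 0 1 * a 0 1 + a 0 2 * a 0 2 = 1 := by
    have := congrFun (congrFun h 0) 0
    simpa [Matrix.mul_apply, Fin.sum_univ_three] using this
  have c00 : a 0 0 * a 0 0 + a 1 0 * a 1 0 + a 2 0 * a 2 0 = 1 := by
    have := congrFun (congrFun hT 0) 0
    simpa [Matrix.mul_apply, Fin.sum_univ_three] using this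
  have r01 : a 0 0 * a 1 0 + a 0 1 * a 1 1 + a 0 2 * a 1 2 = 0 := by
    have := congrFun (congrFun h 0) 1
    simpa [Matrix.mul_apply, Fin.sum_univ_three] using this
  have c01 : a 0 0 * a 0 1 + a 1 0 * a 1 1 + a 2 0 * a 2 1 = 0 := by
    have := congrFun (congrFun hT 0) 1
    simpa [Matrix.mul_apply, Fin.sum_univ_three] using this
  have r02 : a 0 0 * a 2 0 + a 0 1 * a 2 1 + a 0 2 * a 2 2 = 0 := by
    have := congrFun (congrFun h 0) 2
    simpa [Matrix.mul_apply, Fin.sum_univ_three] using this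
  have c02 : a 0 0 * a 0 2 + a 1 0 * a 1 2 + a 2 0 * a 2 2 = 0 := by
    have := congrFun (congrFun hT 0) 2
    simpa [Matrix.mul_apply, Fin.sum_univ_three] using this
  have r11 : a 1 0 * a 1 0 + a 1 1 * a 1 1 + a 1 2 * a 1 2 = 1 := by
    have := congrFun (congrFun h 1) 1
    simpa [Matrix.mul_apply, Fin.sum_univ_three] using this
  have c11 : a 0 1 * a 0 1 + a 1 1 * a 1 1 + a 2 1 * a 2 1 = 1 := by
    have := congrFun (congrFun hT 1) 1
    simpa [Matrix.mul_apply, Fin.sum_univ_three] using this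
  have r12 : a 1 0 * a 2 0 + a 1 1 * a 2 1 + a 1 2 * a 2 2 = 0 := by
    have := congrFun (congrFun h 1) 2
    simpa [Matrix.mul_apply, Fin.sum_univ_three] using this
  have c12 : a 0 1 * a 0 2 + a 1 1 * a 1 2 + a 2 1 * a 2 2 = 0 := by
    have := congrFun (congrFun hT 1) 2
    simpa [Matrix.mul_apply, Fin.sum_univ_three] using this
  have r22 : a 2 0 * a 2 0 + a 2 1 * a 2 1 + a 2 2 * a 2 2 = 1 := by
    have := congrFun (congrFun h 2) 2
    simpa [Matrix.mul_apply, Fin.sum_univ_three] using this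
  have c22 : a 0 2 * a 0 2 + a 1 2 * a 1 2 + a 2 2 * a 2 2 = 1 := by
    have := congrFun (congrFun hT 2) 2
    simpa [Matrix.mul_apply, Fin.sum_univ_three] using this
  have m00 : (a 1 1 * a 2 2 - a 1 2 * a 2 1) = a 0 0 := by
    have := congrFun (congrFun hadj 0) 0
    simp at this
    linear_combination this
  have m01 : -(a 1 0 * a 2 2 - a 1 2 * a 2 0) = a 0 1 := by
    have := congrFun (congrFun hadj 1) 0
    simp at this
    linear_combination this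
  have m02 : (a 1 0 * a 2 1 - a 1 1 * a 2 0) = a 0 2 := by
    have := congrFun (congrFun hadj 2) 0
    simp at this
    linear_combination this
  have m10 : -(a 0 1 * a 2 2 - a 0 2 * a 2 1) = a 1 0 := by
    have := congrFun (congrFun hadj 0) 1
    simp at this
    linear_combination this
  have m11 : (a 0 0 * a 2 2 - a 0 2 * a 2 0) = a 1 1 := by
    have := congrFun (congrFun hadj 1) 1
    simp at this
    linear_combination this
  have m12 : -(a 0 0 * a 2 1 - a 0 1 * a 2 0) = a 1 2 := by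
    have := congrFun (congrFun hadj 2) 1
    simp at this
    linear_combination this
  have m20 : (a 0 1 * a 1 2 - a 0 2 * a 1 1) = a 2 0 := by
    have := congrFun (congrFun hadj 0) 2
    simp at this
    linear_combination this
  have m21 : -(a 0 0 * a 1 2 - a 0 2 * a 1 0) = a 2 1 := by
    have := congrFun (congrFun hadj 1) 2
    simp at this
    linear_combination this
  have m22 : (a 0 0 * a 1 1 - a 0 1 * a 1 0) = a 2 2 := by
    have := congrFun (congrFun hadj 2) 2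
    simp at this
    linear_combination this
  fin_cases k <;> fin_cases i <;> fin_cases j
  · change (1 + a 0 0 + a 1 1 + a 2 2) * (1 + a 0 0 + a 1 1 + a 2 2) =
      (1 + a 0 0 + a 1 1 + a 2 2) * (1 + a 0 0 + a 1 1 + a 2 2)
    ring
  · change (1 + a 0 0 + a 1 1 + a 2 2) * (a 2 1 - a 1 2) =
      (1 + a 0 0 + a 1 1 + a 2 2) * (a 2 1 - a 1 2)
    ring
  · change (1 + a 0 0 + a 1 1 + a 2 2) * (a 0 2 - a 2 0) =
      (1 + a 0 0 + a 1 1 + a 2 2) * (a 0 2 - a 2 0)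
    ring
  · change (1 + a 0 0 + a 1 1 + a 2 2) * (a 1 0 - a 0 1) =
      (1 + a 0 0 + a 1 1 + a 2 2) * (a 1 0 - a 0 1)
    ring
  · change (1 + a 0 0 + a 1 1 + a 2 2) * (a 2 1 - a 1 2) =
      (a 2 1 - a 1 2) * (1 + a 0 0 + a 1 1 + a 2 2)
    ring
  · change (1 + a 0 0 + a 1 1 + a 2 2) * (1 + a 0 0 - a 1 1 - a 2 2) =
      (a 2 1 - a 1 2) * (a 2 1 - a 1 2)
    linear_combination -c11 - c22 - 2 * m00 + r00
  · change (1 + a 0 0 + a 1 1 + a 2 2) * (a 0 1 + a 1 0) =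
      (a 2 1 - a 1 2) * (a 0 2 - a 2 0)
    linear_combination c01 - m01 - m10 + r01
  · change (1 + a 0 0 + a 1 1 + a 2 2) * (a 0 2 + a 2 0) =
      (a 2 1 - a 1 2) * (a 1 0 - a 0 1)
    linear_combination c02 - m02 - m20 + r02
  · change (1 + a 0 0 + a 1 1 + a 2 2) * (a 0 2 - a 2 0) =
      (a 0 2 - a 2 0) * (1 + a 0 0 + a 1 1 + a 2 2)
    ring
  · change (1 + a 0 0 + a 1 1 + a 2 2) * (a 0 1 + a 1 0) =
      (a 0 2 - a 2 0) * (a 2 1 - a 1 2)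
    linear_combination c01 - m01 - m10 + r01
  · change (1 + a 0 0 + a 1 1 + a 2 2) * (1 - a 0 0 + a 1 1 - a 2 2) =
      (a 0 2 - a 2 0) * (a 0 2 - a 2 0)
    linear_combination -c00 - c22 - 2 * m11 + r11
  · change (1 + a 0 0 + a 1 1 + a 2 2) * (a 1 2 + a 2 1) =
      (a 0 2 - a 2 0) * (a 1 0 - a 0 1)
    linear_combination c12 - m12 - m21 + r12
  · change (1 + a 0 0 + a 1 1 + a 2 2) * (a 1 0 - a 0 1) =
      (a 1 0 - a 0 1) * (1 + a 0 0 + a 1 1 + a 2 2)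
    ring
  · change (1 + a 0 0 + a 1 1 + a 2 2) * (a 0 2 + a 2 0) =
      (a 1 0 - a 0 1) * (a 2 1 - a 1 2)
    linear_combination c02 - m02 - m20 + r02
  · change (1 + a 0 0 + a 1 1 + a 2 2) * (a 1 2 + a 2 1) =
      (a 1 0 - a 0 1) * (a 0 2 - a 2 0)
    linear_combination c12 - m12 - m21 + r12
  · change (1 + a 0 0 + a 1 1 + a 2 2) * (1 - a 0 0 - a 1 1 + a 2 2) =
      (a 1 0 - a 0 1) * (a 1 0 - a 0 1)
    linear_combination c22 - 2 * m22 - r00 - r11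
  · change (1 + a 0 0 - a 1 1 - a 2 2) * (1 + a 0 0 + a 1 1 + a 2 2) =
      (a 2 1 - a 1 2) * (a 2 1 - a 1 2)
    linear_combination -c11 - c22 - 2 * m00 + r00
  · change (1 + a 0 0 - a 1 1 - a 2 2) * (a 2 1 - a 1 2) =
      (a 2 1 - a 1 2) * (1 + a 0 0 - a 1 1 - a 2 2)
    ring
  · change (1 + a 0 0 - a 1 1 - a 2 2) * (a 0 2 - a 2 0) =
      (a 2 1 - a 1 2) * (a 0 1 + a 1 0)
    linear_combination c02 - m02 + m20 - r02
  · change (1 + a 0 0 - a 1 1 - a 2 2) * (a 1 0 - a 0 1) =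
      (a 2 1 - a 1 2) * (a 0 2 + a 2 0)
    linear_combination -c01 + m01 - m10 + r01
  · change (1 + a 0 0 - a 1 1 - a 2 2) * (a 2 1 - a 1 2) =
      (1 + a 0 0 - a 1 1 - a 2 2) * (a 2 1 - a 1 2)
    ring
  · change (1 + a 0 0 - a 1 1 - a 2 2) * (1 + a 0 0 - a 1 1 - a 2 2) =
      (1 + a 0 0 - a 1 1 - a 2 2) * (1 + a 0 0 - a 1 1 - a 2 2)
    ring
  · change (1 + a 0 0 - a 1 1 - a 2 2) * (a 0 1 + a 1 0) =
      (1 + a 0 0 - a 1 1 - a 2 2) * (a 0 1 + a 1 0)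
    ring
  · change (1 + a 0 0 - a 1 1 - a 2 2) * (a 0 2 + a 2 0) =
      (1 + a 0 0 - a 1 1 - a 2 2) * (a 0 2 + a 2 0)
    ring
  · change (1 + a 0 0 - a 1 1 - a 2 2) * (a 0 2 - a 2 0) =
      (a 0 1 + a 1 0) * (a 2 1 - a 1 2)
    linear_combination c02 - m02 + m20 - r02
  · change (1 + a 0 0 - a 1 1 - a 2 2) * (a 0 1 + a 1 0) =
      (a 0 1 + a 1 0) * (1 + a 0 0 - a 1 1 - a 2 2)
    ring
  · change (1 + a 0 0 - a 1 1 - a 2 2) * (1 - a 0 0 + a 1 1 - a 2 2) =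
      (a 0 1 + a 1 0) * (a 0 1 + a 1 0)
    linear_combination c22 + 2 * m22 - r00 - r11
  · change (1 + a 0 0 - a 1 1 - a 2 2) * (a 1 2 + a 2 1) =
      (a 0 1 + a 1 0) * (a 0 2 + a 2 0)
    linear_combination -c12 - m12 - m21 - r12
  · change (1 + a 0 0 - a 1 1 - a 2 2) * (a 1 0 - a 0 1) =
      (a 0 2 + a 2 0) * (a 2 1 - a 1 2)
    linear_combination -c01 + m01 - m10 + r01
  · change (1 + a 0 0 - a 1 1 - a 2 2) * (a 0 2 + a 2 0) =
      (a 0 2 + a 2 0) * (1 + a 0 0 - a 1 1 - a 2 2)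
    ring
  · change (1 + a 0 0 - a 1 1 - a 2 2) * (a 1 2 + a 2 1) =
      (a 0 2 + a 2 0) * (a 0 1 + a 1 0)
    linear_combination -c12 - m12 - m21 - r12
  · change (1 + a 0 0 - a 1 1 - a 2 2) * (1 - a 0 0 - a 1 1 + a 2 2) =
      (a 0 2 + a 2 0) * (a 0 2 + a 2 0)
    linear_combination -c00 - c22 + 2 * m11 + r11
  · change (1 - a 0 0 + a 1 1 - a 2 2) * (1 + a 0 0 + a 1 1 + a 2 2) =
      (a 0 2 - a 2 0) * (a 0 2 - a 2 0)
    linear_combination -c00 - c22 - 2 * m11 + r11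
  · change (1 - a 0 0 + a 1 1 - a 2 2) * (a 2 1 - a 1 2) =
      (a 0 2 - a 2 0) * (a 0 1 + a 1 0)
    linear_combination -c12 + m12 - m21 + r12
  · change (1 - a 0 0 + a 1 1 - a 2 2) * (a 0 2 - a 2 0) =
      (a 0 2 - a 2 0) * (1 - a 0 0 + a 1 1 - a 2 2)
    ring
  · change (1 - a 0 0 + a 1 1 - a 2 2) * (a 1 0 - a 0 1) =
      (a 0 2 - a 2 0) * (a 1 2 + a 2 1)
    linear_combination c01 + m01 - m10 - r01
  · change (1 - a 0 0 + a 1 1 - a 2 2) * (a 2 1 - a 1 2) =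
      (a 0 1 + a 1 0) * (a 0 2 - a 2 0)
    linear_combination -c12 + m12 - m21 + r12
  · change (1 - a 0 0 + a 1 1 - a 2 2) * (1 + a 0 0 - a 1 1 - a 2 2) =
      (a 0 1 + a 1 0) * (a 0 1 + a 1 0)
    linear_combination c22 + 2 * m22 - r00 - r11
  · change (1 - a 0 0 + a 1 1 - a 2 2) * (a 0 1 + a 1 0) =
      (a 0 1 + a 1 0) * (1 - a 0 0 + a 1 1 - a 2 2)
    ring
  · change (1 - a 0 0 + a 1 1 - a 2 2) * (a 0 2 + a 2 0) =
      (a 0 1 + a 1 0) * (a 1 2 + a 2 1)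
    linear_combination -c02 - m02 - m20 - r02
  · change (1 - a 0 0 + a 1 1 - a 2 2) * (a 0 2 - a 2 0) =
      (1 - a 0 0 + a 1 1 - a 2 2) * (a 0 2 - a 2 0)
    ring
  · change (1 - a 0 0 + a 1 1 - a 2 2) * (a 0 1 + a 1 0) =
      (1 - a 0 0 + a 1 1 - a 2 2) * (a 0 1 + a 1 0)
    ring
  · change (1 - a 0 0 + a 1 1 - a 2 2) * (1 - a 0 0 + a 1 1 - a 2 2) =
      (1 - a 0 0 + a 1 1 - a 2 2) * (1 - a 0 0 + a 1 1 - a 2 2)
    ring
  · change (1 - a 0 0 + a 1 1 - a 2 2) * (a 1 2 + a 2 1) =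
      (1 - a 0 0 + a 1 1 - a 2 2) * (a 1 2 + a 2 1)
    ring
  · change (1 - a 0 0 + a 1 1 - a 2 2) * (a 1 0 - a 0 1) =
      (a 1 2 + a 2 1) * (a 0 2 - a 2 0)
    linear_combination c01 + m01 - m10 - r01
  · change (1 - a 0 0 + a 1 1 - a 2 2) * (a 0 2 + a 2 0) =
      (a 1 2 + a 2 1) * (a 0 1 + a 1 0)
    linear_combination -c02 - m02 - m20 - r02
  · change (1 - a 0 0 + a 1 1 - a 2 2) * (a 1 2 + a 2 1) =
      (a 1 2 + a 2 1) * (1 - a 0 0 + a 1 1 - a 2 2)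
    ring
  · change (1 - a 0 0 + a 1 1 - a 2 2) * (1 - a 0 0 - a 1 1 + a 2 2) =
      (a 1 2 + a 2 1) * (a 1 2 + a 2 1)
    linear_combination -c11 - c22 + 2 * m00 + r00
  · change (1 - a 0 0 - a 1 1 + a 2 2) * (1 + a 0 0 + a 1 1 + a 2 2) =
      (a 1 0 - a 0 1) * (a 1 0 - a 0 1)
    linear_combination c22 - 2 * m22 - r00 - r11
  · change (1 - a 0 0 - a 1 1 + a 2 2) * (a 2 1 - a 1 2) =
      (a 1 0 - a 0 1) * (a 0 2 + a 2 0)
    linear_combination c12 + m12 - m21 - r12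
  · change (1 - a 0 0 - a 1 1 + a 2 2) * (a 0 2 - a 2 0) =
      (a 1 0 - a 0 1) * (a 1 2 + a 2 1)
    linear_combination -c02 - m02 + m20 + r02
  · change (1 - a 0 0 - a 1 1 + a 2 2) * (a 1 0 - a 0 1) =
      (a 1 0 - a 0 1) * (1 - a 0 0 - a 1 1 + a 2 2)
    ring
  · change (1 - a 0 0 - a 1 1 + a 2 2) * (a 2 1 - a 1 2) =
      (a 0 2 + a 2 0) * (a 1 0 - a 0 1)
    linear_combination c12 + m12 - m21 - r12
  · change (1 - a 0 0 - a 1 1 + a 2 2) * (1 + a 0 0 - a 1 1 - a 2 2) =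
      (a 0 2 + a 2 0) * (a 0 2 + a 2 0)
    linear_combination -c00 - c22 + 2 * m11 + r11
  · change (1 - a 0 0 - a 1 1 + a 2 2) * (a 0 1 + a 1 0) =
      (a 0 2 + a 2 0) * (a 1 2 + a 2 1)
    linear_combination -c01 - m01 - m10 - r01
  · change (1 - a 0 0 - a 1 1 + a 2 2) * (a 0 2 + a 2 0) =
      (a 0 2 + a 2 0) * (1 - a 0 0 - a 1 1 + a 2 2)
    ring
  · change (1 - a 0 0 - a 1 1 + a 2 2) * (a 0 2 - a 2 0) =
      (a 1 2 + a 2 1) * (a 1 0 - a 0 1)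
    linear_combination -c02 - m02 + m20 + r02
  · change (1 - a 0 0 - a 1 1 + a 2 2) * (a 0 1 + a 1 0) =
      (a 1 2 + a 2 1) * (a 0 2 + a 2 0)
    linear_combination -c01 - m01 - m10 - r01
  · change (1 - a 0 0 - a 1 1 + a 2 2) * (1 - a 0 0 + a 1 1 - a 2 2) =
      (a 1 2 + a 2 1) * (a 1 2 + a 2 1)
    linear_combination -c11 - c22 + 2 * m00 + r00
  · change (1 - a 0 0 - a 1 1 + a 2 2) * (a 1 2 + a 2 1) =
      (a 1 2 + a 2 1) * (1 - a 0 0 - a 1 1 + a 2 2)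
    ring
  · change (1 - a 0 0 - a 1 1 + a 2 2) * (a 1 0 - a 0 1) =
      (1 - a 0 0 - a 1 1 + a 2 2) * (a 1 0 - a 0 1)
    ring
  · change (1 - a 0 0 - a 1 1 + a 2 2) * (a 0 2 + a 2 0) =
      (1 - a 0 0 - a 1 1 + a 2 2) * (a 0 2 + a 2 0)
    ring
  · change (1 - a 0 0 - a 1 1 + a 2 2) * (a 1 2 + a 2 1) =
      (1 - a 0 0 - a 1 1 + a 2 2) * (a 1 2 + a 2 1)
    ring
  · change (1 - a 0 0 - a 1 1 + a 2 2) * (1 - a 0 0 - a 1 1 + a 2 2) =
      (1 - a 0 0 - a 1 1 + a 2 2) * (1 - a 0 0 - a 1 1 + a 2 2)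
    ring

end

end Pool.Agent.Lib.MP_551055_al.RO
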