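import Mathlib
import Pool.Agent.Lib.MP_551055_al.Trim.BT.Tree
import Pool.Agent.Lib.MP_551055_al.Trim.RO.Rank

/-!
# Rotations of three-dimensional space and matrices of size two
-/

set_option autoImplicit false

namespace Pool.Agent.Lib.MP_551055_al.BT
end Pool.Agent.Lib.MP_551055_al.BT

namespace Pool.Agent.Lib.MP_551055_al.RO

open Matrix

open Pool.Agent.Lib.MP_551055_al.BT (GL2 DV.det_ne)

section

variable {F : Type} [Field F]

/-- The norm of a quaternion. -/
def nn (q : Fin 4 → F) : F := q 0 ^ 2 + q 1 ^ 2 + q 2 ^ 2 + q 3 ^ 2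

/-- The quaternion of a rotation. -/
theorem exists_q [CharZero F] (a : Matrix (Fin 3) (Fin 3) F) (h : a * aᵀ = 1) (hd : a.det = 1) :
    ∃ q : Fin 4 → F, nn q ≠ 0 ∧ ∀ i j, QQ a i j * nn q = 4 * (q i * q j) := by
  have htr : QQ a 0 0 + QQ a 1 1 + QQ a 2 2 + QQ a 3 3 = 4 := by
    change (1 + a 0 0 + a 1 1 + a 2 2) + (1 + a 0 0 - a 1 1 - a 2 2) +
      (1 - a 0 0 + a 1 1 - a 2 2) + (1 - a 0 0 - a 1 1 + a 2 2) = 4
    ring
  have h4 : (4 : F) ≠ 0 := by norm_num
  obtain ⟨k, hk⟩ : ∃ k, QQ a k k ≠ 0 := by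
    by_contra hcon
    push Not at hcon
    rw [hcon, hcon, hcon, hcon] at htr
    apply h4
    rw [← htr]
    ring
  have hr := QQ_rank a h hd k
  have hN : nn (QQ a k) = 4 * QQ a k k := by
    unfold nn
    have h0 := hr 0 0
    have h1 := hr 1 1
    have h2 := hr 2 2
    have h3 := hr 3 3
    linear_combination -h0 - h1 - h2 - h3 + QQ a k k * htr
  refine ⟨QQ a k, ?_, fun i j => ?_⟩
  · rw [hN]
    exact mul_ne_zero h4 hk
  · rw [hN, ← hr i j]
    ring

variable {L : Type} [Field L] [Algebra F L]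

/-- The pure quaternions. -/
def PP (w : L) : Fin 3 → Matrix (Fin 2) (Fin 2) L :=
  ![!![w, 0; 0, -w], !![0, 1; -1, 0], !![0, w; w, 0]]

/-- The matrix `x` induces the linear transformation `a` of the space of pure quaternions. -/
def Lifts (w : L) (x : Matrix (Fin 2) (Fin 2) L) (a : Matrix (Fin 3) (Fin 3) F) : Prop :=
  ∀ j, x * PP w j = (∑ i, algebraMap F L (a i j) • PP w i) * x

/-- The matrix of a quaternion. -/
def XX (w : L) (q : Fin 4 → F) : Matrix (Fin 2) (Fin 2) L :=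
  !![algebraMap F L (q 0) + w * algebraMap F L (q 1),
     algebraMap F L (q 2) + w * algebraMap F L (q 3);
     -algebraMap F L (q 2) + w * algebraMap F L (q 3),
     algebraMap F L (q 0) - w * algebraMap F L (q 1)]

theorem XX_trace (w : L) (q : Fin 4 → F) : (XX w q).trace = algebraMap F L (2 * q 0) := by
  rw [Matrix.trace_fin_two]
  change algebraMap F L (q 0) + w * algebraMap F L (q 1) +
    (algebraMap F L (q 0) - w * algebraMap F L (q 1)) = _
  rw [map_mul, map_ofNat]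
  ring

theorem XX_det (w : L) (hw : w * w = -1) (q : Fin 4 → F) :
    (XX w q).det = algebraMap F L (nn q) := by
  rw [Matrix.det_fin_two]
  change (algebraMap F L (q 0) + w * algebraMap F L (q 1)) *
    (algebraMap F L (q 0) - w * algebraMap F L (q 1)) -
    (algebraMap F L (q 2) + w * algebraMap F L (q 3)) *
    (-algebraMap F L (q 2) + w * algebraMap F L (q 3)) = _
  unfold nn
  rw [map_add, map_add, map_add, map_pow, map_pow, map_pow, map_pow]
  linear_combination (-algebraMap F L (q 1) ^ 2 - algebraMap F L (q 3) ^ 2) * hw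

theorem lifts_entry (w : L) (x : Matrix (Fin 2) (Fin 2) L) (a : Matrix (Fin 3) (Fin 3) F)
    (h : ∀ j r s, (x * PP w j) r s = algebraMap F L (a 0 j) * (PP w 0 * x) r s +
      algebraMap F L (a 1 j) * (PP w 1 * x) r s + algebraMap F L (a 2 j) * (PP w 2 * x) r s) :
    Lifts w x a := by
  intro j
  refine Matrix.ext fun r s => ?_
  rw [h, Fin.sum_univ_three, add_mul, add_mul, Matrix.add_apply, Matrix.add_apply,
    smul_mul_assoc, smul_mul_assoc, smul_mul_assoc, Matrix.smul_apply, Matrix.smul_apply,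
    Matrix.smul_apply, smul_eq_mul, smul_eq_mul, smul_eq_mul]

set_option linter.unusedSimpArgs false in
/-- The quaternion of a rotation induces the rotation. -/
theorem lifts_XX [CharZero F] (w : L) (hw : w * w = -1) (a : Matrix (Fin 3) (Fin 3) F)
    (q : Fin 4 → F) (hq : nn q ≠ 0) (h : ∀ i j, QQ a i j * nn q = 4 * (q i * q j)) :
    Lifts w (XX w q) a := by
  have h4 : (4 : F) ≠ 0 := by norm_num
  have h2 : (2 : F) ≠ 0 := two_ne_zero
  have e00 : (1 + a 0 0 + a 1 1 + a 2 2) * nn q = 4 * (q 0 * q 0) := h 0 0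
  have e11 : (1 + a 0 0 - a 1 1 - a 2 2) * nn q = 4 * (q 1 * q 1) := h 1 1
  have e22 : (1 - a 0 0 + a 1 1 - a 2 2) * nn q = 4 * (q 2 * q 2) := h 2 2
  have e33 : (1 - a 0 0 - a 1 1 + a 2 2) * nn q = 4 * (q 3 * q 3) := h 3 3
  have e01 : (a 2 1 - a 1 2) * nn q = 4 * (q 0 * q 1) := h 0 1
  have e02 : (a 0 2 - a 2 0) * nn q = 4 * (q 0 * q 2) := h 0 2
  have e03 : (a 1 0 - a 0 1) * nn q = 4 * (q 0 * q 3) := h 0 3
  have e12 : (a 0 1 + a 1 0) * nn q = 4 * (q 1 * q 2) := h 1 2
  have e13 : (a 0 2 + a 2 0) * nn q = 4 * (q 1 * q 3) := h 1 3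
  have e23 : (a 1 2 + a 2 1) * nn q = 4 * (q 2 * q 3) := h 2 3
  have f00 : nn q * a 0 0 = q 0 * q 0 + q 1 * q 1 - q 2 * q 2 - q 3 * q 3 :=
    mul_left_cancel₀ h4 (by linear_combination e00 + e11 - e22 - e33)
  have f11 : nn q * a 1 1 = q 0 * q 0 - q 1 * q 1 + q 2 * q 2 - q 3 * q 3 :=
    mul_left_cancel₀ h4 (by linear_combination e00 - e11 + e22 - e33)
  have f22 : nn q * a 2 2 = q 0 * q 0 - q 1 * q 1 - q 2 * q 2 + q 3 * q 3 :=
    mul_left_cancel₀ h4 (by linear_combination e00 - e11 - e22 + e33)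
  have f01 : nn q * a 0 1 = 2 * (q 1 * q 2) - 2 * (q 0 * q 3) :=
    mul_left_cancel₀ h2 (by linear_combination e12 - e03)
  have f10 : nn q * a 1 0 = 2 * (q 1 * q 2) + 2 * (q 0 * q 3) :=
    mul_left_cancel₀ h2 (by linear_combination e12 + e03)
  have f02 : nn q * a 0 2 = 2 * (q 1 * q 3) + 2 * (q 0 * q 2) :=
    mul_left_cancel₀ h2 (by linear_combination e13 + e02)
  have f20 : nn q * a 2 0 = 2 * (q 1 * q 3) - 2 * (q 0 * q 2) :=
    mul_left_cancel₀ h2 (by linear_combination e13 - e02)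
  have f12 : nn q * a 1 2 = 2 * (q 2 * q 3) - 2 * (q 0 * q 1) :=
    mul_left_cancel₀ h2 (by linear_combination e23 - e01)
  have f21 : nn q * a 2 1 = 2 * (q 2 * q 3) + 2 * (q 0 * q 1) :=
    mul_left_cancel₀ h2 (by linear_combination e23 + e01)
  have hN : algebraMap F L (nn q) ≠ 0 := by
    rw [Ne, map_eq_zero_iff _ (algebraMap F L).injective]
    exact hq
  obtain ⟨N, hNN⟩ : ∃ N, N = algebraMap F L (nn q) := ⟨_, rfl⟩
  obtain ⟨q0, hq0⟩ : ∃ x, x = algebraMap F L (q 0) := ⟨_, rfl⟩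
  obtain ⟨q1, hq1⟩ : ∃ x, x = algebraMap F L (q 1) := ⟨_, rfl⟩
  obtain ⟨q2, hq2⟩ : ∃ x, x = algebraMap F L (q 2) := ⟨_, rfl⟩
  obtain ⟨q3, hq3⟩ : ∃ x, x = algebraMap F L (q 3) := ⟨_, rfl⟩
  have hNq : N = q0 ^ 2 + q1 ^ 2 + q2 ^ 2 + q3 ^ 2 := by
    rw [hNN, hq0, hq1, hq2, hq3, ← map_pow, ← map_pow, ← map_pow, ← map_pow, ← map_add,
      ← map_add, ← map_add]
    rfl
  rw [← hNN] at hN
  have h00 : N * algebraMap F L (a 0 0) = q0 * q0 + q1 * q1 - q2 * q2 - q3 * q3 := by
    have := congrArg (algebraMap F L) f00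
    simp only [map_mul, map_add, map_sub, map_ofNat, ← hNN, ← hq0, ← hq1, ← hq2, ← hq3] at this
    exact this
  have h01 : N * algebraMap F L (a 0 1) = 2 * (q1 * q2) - 2 * (q0 * q3) := by
    have := congrArg (algebraMap F L) f01
    simp only [map_mul, map_add, map_sub, map_ofNat, ← hNN, ← hq0, ← hq1, ← hq2, ← hq3] at this
    exact this
  have h02 : N * algebraMap F L (a 0 2) = 2 * (q1 * q3) + 2 * (q0 * q2) := by
    have := congrArg (algebraMap F L) f02
    simp only [map_mul, map_add, map_sub, map_ofNat, ← hNN, ← hq0, ← hq1, ← hq2, ← hq3] at this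
    exact this
  have h10 : N * algebraMap F L (a 1 0) = 2 * (q1 * q2) + 2 * (q0 * q3) := by
    have := congrArg (algebraMap F L) f10
    simp only [map_mul, map_add, map_sub, map_ofNat, ← hNN, ← hq0, ← hq1, ← hq2, ← hq3] at this
    exact this
  have h11 : N * algebraMap F L (a 1 1) = q0 * q0 - q1 * q1 + q2 * q2 - q3 * q3 := by
    have := congrArg (algebraMap F L) f11
    simp only [map_mul, map_add, map_sub, map_ofNat, ← hNN, ← hq0, ← hq1, ← hq2, ← hq3] at this
    exact this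
  have h12 : N * algebraMap F L (a 1 2) = 2 * (q2 * q3) - 2 * (q0 * q1) := by
    have := congrArg (algebraMap F L) f12
    simp only [map_mul, map_add, map_sub, map_ofNat, ← hNN, ← hq0, ← hq1, ← hq2, ← hq3] at this
    exact this
  have h20 : N * algebraMap F L (a 2 0) = 2 * (q1 * q3) - 2 * (q0 * q2) := by
    have := congrArg (algebraMap F L) f20
    simp only [map_mul, map_add, map_sub, map_ofNat, ← hNN, ← hq0, ← hq1, ← hq2, ← hq3] at this
    exact this
  have h21 : N * algebraMap F L (a 2 1) = 2 * (q2 * q3) + 2 * (q0 * q1) := by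
    have := congrArg (algebraMap F L) f21
    simp only [map_mul, map_add, map_sub, map_ofNat, ← hNN, ← hq0, ← hq1, ← hq2, ← hq3] at this
    exact this
  have h22 : N * algebraMap F L (a 2 2) = q0 * q0 - q1 * q1 - q2 * q2 + q3 * q3 := by
    have := congrArg (algebraMap F L) f22
    simp only [map_mul, map_add, map_sub, map_ofNat, ← hNN, ← hq0, ← hq1, ← hq2, ← hq3] at this
    exact this
  have hX : XX w q = !![q0 + w * q1, q2 + w * q3; -q2 + w * q3, q0 - w * q1] := by
    rw [hq0, hq1, hq2, hq3]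
    rfl
  have hw' : w * w + 1 = 0 := by rw [hw]; ring
  refine lifts_entry w _ a fun j r s => mul_left_cancel₀ hN ?_
  rw [hX]
  fin_cases j <;> fin_cases r <;> fin_cases s
  · simp only [PP, Matrix.mul_apply, Fin.sum_univ_two, Fin.zero_eta, Fin.mk_one, Fin.isValue,
      Fin.reduceFinMk, Matrix.of_apply, Matrix.cons_val', Matrix.cons_val_zero,
      Matrix.cons_val_one, Matrix.cons_val, Matrix.cons_val_fin_one]
    rw [hNq] at *
    linear_combination (2 * q0 * q2 * q3 + 2 * q1 * q2 * q2) * hw' - (q0 * w + q1 * w * w) * h00 - (-q2 + q3 * w) * h10 - (-q2 * w + q3 * w * w) * h20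
  · simp only [PP, Matrix.mul_apply, Fin.sum_univ_two, Fin.zero_eta, Fin.mk_one, Fin.isValue,
      Fin.reduceFinMk, Matrix.of_apply, Matrix.cons_val', Matrix.cons_val_zero,
      Matrix.cons_val_one, Matrix.cons_val, Matrix.cons_val_fin_one]
    rw [hNq] at *
    linear_combination (-2 * q0 * q0 * q3 - 2 * q0 * q1 * q2) * hw' - (q2 * w + q3 * w * w) * h00 - (q0 - q1 * w) * h10 - (q0 * w - q1 * w * w) * h20
  · simp only [PP, Matrix.mul_apply, Fin.sum_univ_two, Fin.zero_eta, Fin.mk_one, Fin.isValue,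
      Fin.reduceFinMk, Matrix.of_apply, Matrix.cons_val', Matrix.cons_val_zero,
      Matrix.cons_val_one, Matrix.cons_val, Matrix.cons_val_fin_one]
    rw [hNq] at *
    linear_combination (2 * q0 * q0 * q3 + 2 * q0 * q1 * q2) * hw' - (q2 * w - q3 * w * w) * h00 - (-q0 - q1 * w) * h10 - (q0 * w + q1 * w * w) * h20
  · simp only [PP, Matrix.mul_apply, Fin.sum_univ_two, Fin.zero_eta, Fin.mk_one, Fin.isValue,
      Fin.reduceFinMk, Matrix.of_apply, Matrix.cons_val', Matrix.cons_val_zero,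
      Matrix.cons_val_one, Matrix.cons_val, Matrix.cons_val_fin_one]
    rw [hNq] at *
    linear_combination (2 * q0 * q2 * q3 + 2 * q1 * q2 * q2) * hw' - (-q0 * w + q1 * w * w) * h00 - (-q2 - q3 * w) * h10 - (q2 * w + q3 * w * w) * h20
  · simp only [PP, Matrix.mul_apply, Fin.sum_univ_two, Fin.zero_eta, Fin.mk_one, Fin.isValue,
      Fin.reduceFinMk, Matrix.of_apply, Matrix.cons_val', Matrix.cons_val_zero,
      Matrix.cons_val_one, Matrix.cons_val, Matrix.cons_val_fin_one]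
    rw [hNq] at *
    linear_combination (-2 * q1 * q1 * q2 - 2 * q2 * q3 * q3) * hw' - (q0 * w + q1 * w * w) * h01 - (-q2 + q3 * w) * h11 - (-q2 * w + q3 * w * w) * h21
  · simp only [PP, Matrix.mul_apply, Fin.sum_univ_two, Fin.zero_eta, Fin.mk_one, Fin.isValue,
      Fin.reduceFinMk, Matrix.of_apply, Matrix.cons_val', Matrix.cons_val_zero,
      Matrix.cons_val_one, Matrix.cons_val, Matrix.cons_val_fin_one]
    rw [hNq] at *
    linear_combination (2 * q0 * q1 * q1 + 2 * q0 * q3 * q3) * hw' - (q2 * w + q3 * w * w) * h01 - (q0 - q1 * w) * h11 - (q0 * w - q1 * w * w) * h21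
  · simp only [PP, Matrix.mul_apply, Fin.sum_univ_two, Fin.zero_eta, Fin.mk_one, Fin.isValue,
      Fin.reduceFinMk, Matrix.of_apply, Matrix.cons_val', Matrix.cons_val_zero,
      Matrix.cons_val_one, Matrix.cons_val, Matrix.cons_val_fin_one]
    rw [hNq] at *
    linear_combination (-2 * q0 * q1 * q1 - 2 * q0 * q3 * q3) * hw' - (q2 * w - q3 * w * w) * h01 - (-q0 - q1 * w) * h11 - (q0 * w + q1 * w * w) * h21
  · simp only [PP, Matrix.mul_apply, Fin.sum_univ_two, Fin.zero_eta, Fin.mk_one, Fin.isValue,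
      Fin.reduceFinMk, Matrix.of_apply, Matrix.cons_val', Matrix.cons_val_zero,
      Matrix.cons_val_one, Matrix.cons_val, Matrix.cons_val_fin_one]
    rw [hNq] at *
    linear_combination (-2 * q1 * q1 * q2 - 2 * q2 * q3 * q3) * hw' - (-q0 * w + q1 * w * w) * h01 - (-q2 - q3 * w) * h11 - (q2 * w + q3 * w * w) * h21
  · simp only [PP, Matrix.mul_apply, Fin.sum_univ_two, Fin.zero_eta, Fin.mk_one, Fin.isValue,
      Fin.reduceFinMk, Matrix.of_apply, Matrix.cons_val', Matrix.cons_val_zero,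
      Matrix.cons_val_one, Matrix.cons_val, Matrix.cons_val_fin_one]
    rw [hNq] at *
    linear_combination (-2 * q0 * q1 * q2 + 2 * q2 * q2 * q3) * hw' - (q0 * w + q1 * w * w) * h02 - (-q2 + q3 * w) * h12 - (-q2 * w + q3 * w * w) * h22
  · simp only [PP, Matrix.mul_apply, Fin.sum_univ_two, Fin.zero_eta, Fin.mk_one, Fin.isValue,
      Fin.reduceFinMk, Matrix.of_apply, Matrix.cons_val', Matrix.cons_val_zero,
      Matrix.cons_val_one, Matrix.cons_val, Matrix.cons_val_fin_one]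
    rw [hNq] at *
    linear_combination (2 * q0 * q0 * q1 - 2 * q0 * q2 * q3) * hw' - (q2 * w + q3 * w * w) * h02 - (q0 - q1 * w) * h12 - (q0 * w - q1 * w * w) * h22
  · simp only [PP, Matrix.mul_apply, Fin.sum_univ_two, Fin.zero_eta, Fin.mk_one, Fin.isValue,
      Fin.reduceFinMk, Matrix.of_apply, Matrix.cons_val', Matrix.cons_val_zero,
      Matrix.cons_val_one, Matrix.cons_val, Matrix.cons_val_fin_one]
    rw [hNq] at *
    linear_combination (-2 * q0 * q0 * q1 + 2 * q0 * q2 * q3) * hw' - (q2 * w - q3 * w * w) * h02 - (-q0 - q1 * w) * h12 - (q0 * w + q1 * w * w) * h22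
  · simp only [PP, Matrix.mul_apply, Fin.sum_univ_two, Fin.zero_eta, Fin.mk_one, Fin.isValue,
      Fin.reduceFinMk, Matrix.of_apply, Matrix.cons_val', Matrix.cons_val_zero,
      Matrix.cons_val_one, Matrix.cons_val, Matrix.cons_val_fin_one]
    rw [hNq] at *
    linear_combination (-2 * q0 * q1 * q2 + 2 * q2 * q2 * q3) * hw' - (-q0 * w + q1 * w * w) * h02 - (-q2 - q3 * w) * h12 - (q2 * w + q3 * w * w) * h22

end

end Pool.Agent.Lib.MP_551055_al.RO
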