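import Mathlib
import Pool.Agent.Lib.MP_551055_al.Trim.BT.Mixed
import Pool.Agent.Lib.MP_551055_al.Trim.BT.Tree
import Pool.Agent.Lib.MP_551055_al.Trim.GL.GLZ
import Pool.Agent.Lib.MP_551055_al.Trim.JK.Planes
import Pool.Agent.Lib.MP_551055_al.Trim.LS.Pos
import Pool.Agent.Lib.MP_551055_al.Trim.LS.Stmts
import Pool.Agent.Lib.MP_551055_al.Trim.MT.K1
import Pool.Agent.Lib.MP_551055_al.Trim.RO.Int
import Pool.Agent.Lib.MP_551055_al.Trim.RO.Kron
import Pool.Agent.Lib.MP_551055_al.Trim.RO.Proj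
import Pool.Agent.Lib.MP_551055_al.Trim.RO.Rank
import Pool.Agent.Lib.MP_551055_al.Trim.RO.Rot
import Pool.Agent.Lib.MP_551055_al.Trim.T4.Ind0

/-!
# Groups of rotations of three-dimensional space

`F` is a field of characteristic zero in which the sums of squares which are algebraic over `ℚ` are
totally nonnegative. For a finitely generated group `K` and a homomorphism `K → SO₃(F)` there are
finitely many trees with an action of `K` such that the elements which fix a tuple of vertices have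
images of finite order.
-/

set_option autoImplicit false

namespace Pool.Agent.Lib.MP_551055_al
end Pool.Agent.Lib.MP_551055_al

namespace Pool.Agent.Lib.MP_551055_al.LS
end Pool.Agent.Lib.MP_551055_al.LS

namespace Pool.Agent.Lib.MP_551055_al.BT
end Pool.Agent.Lib.MP_551055_al.BT

namespace Pool.Agent.Lib.MP_551055_al.JK
end Pool.Agent.Lib.MP_551055_al.JK

namespace Pool.Agent.Lib.MP_551055_al.RO

open Matrix

open Pool.Agent.Lib.MP_551055_al

open Pool.Agent.Lib.MP_551055_al.LS

open Pool.Agent.Lib.MP_551055_al.BT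

open Pool.Agent.Lib.MP_551055_al.JK

/-- The sums of squares which are algebraic over `ℚ` are totally nonnegative. -/
def TotNonneg (F : Type) [Field F] [Algebra ℚ F] : Prop :=
  ∀ a : F, IsSumSq a → IsIntegral ℚ a →
    ∀ z : ℂ, Polynomial.aeval z (minpoly ℚ a) = 0 → z.im = 0 ∧ 0 ≤ z.re

/-! ## Matrices of size two -/

section

variable {F L : Type} [Field F] [Field L] [Algebra F L] {w : L}

theorem Lifts.mul {x y : Matrix (Fin 2) (Fin 2) L} {a b : Matrix (Fin 3) (Fin 3) F}
    (hx : Lifts w x a) (hy : Lifts w y b) : Lifts w (x * y) (a * b) := by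
  intro j
  rw [mul_assoc, hy j, ← mul_assoc, Finset.mul_sum]
  have h1 : ∀ i, x * (algebraMap F L (b i j) • PP w i) =
      algebraMap F L (b i j) • (∑ k, algebraMap F L (a k i) • PP w k) * x := by
    intro i
    rw [mul_smul_comm, hx i, smul_mul_assoc]
  rw [Finset.sum_congr rfl fun i _ => h1 i, ← Finset.sum_mul, mul_assoc]
  congr 1
  simp only [Fin.sum_univ_three, Matrix.mul_apply, map_add, map_mul, smul_add, smul_smul, add_smul]
  module

theorem lifts_one : Lifts w (1 : Matrix (Fin 2) (Fin 2) L) (1 : Matrix (Fin 3) (Fin 3) F) := by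
  intro j
  rw [one_mul, mul_one, Fin.sum_univ_three]
  fin_cases j <;> simp [Matrix.one_apply]

theorem Lifts.inv {x y : Matrix (Fin 2) (Fin 2) L} {a b : Matrix (Fin 3) (Fin 3) F}
    (hx : Lifts w x a) (hyx : y * x = 1) (hxy : x * y = 1) (hab : a * b = 1) :
    Lifts w y b := by
  intro j
  -- `x (∑ b_ij P_i) = P_j x`
  have h1 : x * (∑ i, algebraMap F L (b i j) • PP w i) = PP w j * x := by
    rw [Finset.mul_sum]
    have h2 : ∀ i, x * (algebraMap F L (b i j) • PP w i) =
        algebraMap F L (b i j) • (∑ k, algebraMap F L (a k i) • PP w k) * x := by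
      intro i
      rw [mul_smul_comm, hx i, smul_mul_assoc]
    rw [Finset.sum_congr rfl fun i _ => h2 i, ← Finset.sum_mul]
    congr 1
    have h3 : ∀ k, algebraMap F L (a k 0 * b 0 j + a k 1 * b 1 j + a k 2 * b 2 j) =
        if k = j then 1 else 0 := by
      intro k
      have h4 := congrFun (congrFun hab k) j
      rw [Matrix.mul_apply, Fin.sum_univ_three, Matrix.one_apply] at h4
      rw [h4]
      split_ifs
      · exact map_one _
      · exact map_zero _
    have h5 : ∑ k, (algebraMap F L (a k 0 * b 0 j + a k 1 * b 1 j + a k 2 * b 2 j)) • PP w k =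
        PP w j := by
      rw [Finset.sum_congr rfl fun k _ => by rw [h3 k]]
      simp
    rw [← h5]
    simp only [Fin.sum_univ_three, map_add, map_mul, smul_add, smul_smul, add_smul]
    module
  calc y * PP w j = y * (PP w j * x) * y := by rw [mul_assoc, mul_assoc, hxy, mul_one]
    _ = (∑ i, algebraMap F L (b i j) • PP w i) * y := by rw [← h1, ← mul_assoc, hyx, one_mul]

/-- Matrices which commute with the pure quaternions are scalar. -/
theorem scalar_of_lifts_one [CharZero L] (hw : w * w = -1) {x : Matrix (Fin 2) (Fin 2) L}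
    (hx : Lifts w x (1 : Matrix (Fin 3) (Fin 3) F)) : ∃ c : L, x = c • 1 := by
  have hw0 : w ≠ 0 := by
    rintro rfl
    rw [mul_zero] at hw
    exact one_ne_zero (neg_eq_zero.1 hw.symm)
  have h0 : x * PP w 0 = PP w 0 * x := by
    have := hx 0
    simpa [Fin.sum_univ_three, Matrix.one_apply] using this
  have h1 : x * PP w 1 = PP w 1 * x := by
    have := hx 1
    simpa [Fin.sum_univ_three, Matrix.one_apply] using this
  have e01 : x 0 0 * 0 + x 0 1 * -w = w * x 0 1 + 0 * x 1 1 := by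
    have := congrFun (congrFun h0 0) 1
    rw [Matrix.mul_apply, Matrix.mul_apply, Fin.sum_univ_two, Fin.sum_univ_two] at this
    exact this
  have e10 : x 1 0 * w + x 1 1 * 0 = 0 * x 0 0 + -w * x 1 0 := by
    have := congrFun (congrFun h0 1) 0
    rw [Matrix.mul_apply, Matrix.mul_apply, Fin.sum_univ_two, Fin.sum_univ_two] at this
    exact this
  have e11 : x 0 0 * 1 + x 0 1 * 0 = 0 * x 0 1 + 1 * x 1 1 := by
    have := congrFun (congrFun h1 0) 1
    rw [Matrix.mul_apply, Matrix.mul_apply, Fin.sum_univ_two, Fin.sum_univ_two] at this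
    exact this
  have h2w : (2 : L) * w ≠ 0 := mul_ne_zero two_ne_zero hw0
  have f01 : x 0 1 = 0 := by
    have : 2 * w * x 0 1 = 0 := by linear_combination -e01
    exact (mul_eq_zero.1 this).resolve_left h2w
  have f10 : x 1 0 = 0 := by
    have : 2 * w * x 1 0 = 0 := by linear_combination e10
    exact (mul_eq_zero.1 this).resolve_left h2w
  have f11 : x 1 1 = x 0 0 := by linear_combination -e11
  refine ⟨x 0 0, Matrix.ext fun i j => ?_⟩
  rw [Matrix.smul_apply, Matrix.one_apply, smul_eq_mul]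
  fin_cases i <;> fin_cases j
  · simp
  · simpa using f01
  · simpa using f10
  · simpa using f11

/-- Only the identity is induced by a scalar matrix. -/
theorem eq_one_of_scalar [CharZero L] (hw : w * w = -1) {a : Matrix (Fin 3) (Fin 3) F} {c : L}
    (hc : c ≠ 0) (h : Lifts w (c • (1 : Matrix (Fin 2) (Fin 2) L)) a) : a = 1 := by
  have hw0 : w ≠ 0 := by
    rintro rfl
    rw [mul_zero] at hw
    exact one_ne_zero (neg_eq_zero.1 hw.symm)
  have h1 : ∀ j, PP w j = ∑ i, algebraMap F L (a i j) • PP w i := by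
    intro j
    have h2 := h j
    rw [smul_mul_assoc, one_mul, mul_smul_comm, mul_one] at h2
    exact smul_right_injective _ hc h2
  have key : ∀ j, PP w j 0 0 = algebraMap F L (a 0 j) * w ∧
      PP w j 0 1 = algebraMap F L (a 1 j) + algebraMap F L (a 2 j) * w ∧
      PP w j 1 0 = -algebraMap F L (a 1 j) + algebraMap F L (a 2 j) * w := by
    intro j
    have h2 := h1 j
    rw [Fin.sum_univ_three] at h2
    refine ⟨?_, ?_, ?_⟩
    · have h3 := congrFun (congrFun h2 0) 0
      rw [h3, Matrix.add_apply, Matrix.add_apply, Matrix.smul_apply, Matrix.smul_apply,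
        Matrix.smul_apply, smul_eq_mul, smul_eq_mul, smul_eq_mul]
      simp [PP]
    · have h3 := congrFun (congrFun h2 0) 1
      rw [h3, Matrix.add_apply, Matrix.add_apply, Matrix.smul_apply, Matrix.smul_apply,
        Matrix.smul_apply, smul_eq_mul, smul_eq_mul, smul_eq_mul]
      simp [PP]
    · have h3 := congrFun (congrFun h2 1) 0
      rw [h3, Matrix.add_apply, Matrix.add_apply, Matrix.smul_apply, Matrix.smul_apply,
        Matrix.smul_apply, smul_eq_mul, smul_eq_mul, smul_eq_mul]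
      simp [PP]
  have hinj := (algebraMap F L).injective
  have h2 : (2 : L) ≠ 0 := two_ne_zero
  have k0 : w = algebraMap F L (a 0 0) * w ∧
      (0 : L) = algebraMap F L (a 1 0) + algebraMap F L (a 2 0) * w ∧
      (0 : L) = -algebraMap F L (a 1 0) + algebraMap F L (a 2 0) * w := key 0
  have k1 : (0 : L) = algebraMap F L (a 0 1) * w ∧
      (1 : L) = algebraMap F L (a 1 1) + algebraMap F L (a 2 1) * w ∧
      (-1 : L) = -algebraMap F L (a 1 1) + algebraMap F L (a 2 1) * w := key 1
  have k2 : (0 : L) = algebraMap F L (a 0 2) * w ∧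
      w = algebraMap F L (a 1 2) + algebraMap F L (a 2 2) * w ∧
      w = -algebraMap F L (a 1 2) + algebraMap F L (a 2 2) * w := key 2
  have f00 : a 0 0 = 1 := hinj (by
    rw [map_one]
    exact mul_right_cancel₀ hw0 (by rw [one_mul]; exact k0.1.symm))
  have f10 : a 1 0 = 0 := hinj (by
    rw [map_zero]
    exact mul_left_cancel₀ h2 (by linear_combination k0.2.2 - k0.2.1))
  have f20 : a 2 0 = 0 := hinj (by
    rw [map_zero]
    exact mul_left_cancel₀ (mul_ne_zero h2 hw0) (by linear_combination -k0.2.2 - k0.2.1))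
  have f01 : a 0 1 = 0 := hinj (by
    rw [map_zero]
    exact mul_right_cancel₀ hw0 (by rw [zero_mul]; exact k1.1.symm))
  have f11 : a 1 1 = 1 := hinj (by
    rw [map_one]
    exact mul_left_cancel₀ h2 (by linear_combination k1.2.2 - k1.2.1))
  have f21 : a 2 1 = 0 := hinj (by
    rw [map_zero]
    exact mul_left_cancel₀ (mul_ne_zero h2 hw0) (by linear_combination -k1.2.2 - k1.2.1))
  have f02 : a 0 2 = 0 := hinj (by
    rw [map_zero]
    exact mul_right_cancel₀ hw0 (by rw [zero_mul]; exact k2.1.symm))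
  have f12 : a 1 2 = 0 := hinj (by
    rw [map_zero]
    exact mul_left_cancel₀ h2 (by linear_combination k2.2.2 - k2.2.1))
  have f22 : a 2 2 = 1 := hinj (by
    rw [map_one]
    exact mul_left_cancel₀ (mul_ne_zero h2 hw0) (by linear_combination -k2.2.2 - k2.2.1))
  refine Matrix.ext fun i j => ?_
  rw [Matrix.one_apply]
  fin_cases i <;> fin_cases j
  · simpa using f00
  · simpa using f01
  · simpa using f02
  · simpa using f10
  · simpa using f11
  · simpa using f12
  · simpa using f20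
  · simpa using f21
  · simpa using f22

end

/-! ## Positivity -/

section

variable {F : Type} [Field F] [Algebra ℚ F]

theorem TotNonneg.sq_eq_zero (hF : TotNonneg F) (x y z : F) (h : x ^ 2 + y ^ 2 + z ^ 2 = 0) :
    x = 0 := by
  by_contra hx
  have h1 : IsSumSq (-1 : F) := by
    have e : (-1 : F) = (y / x) * (y / x) + (z / x) * (z / x) := by
      field_simp
      linear_combination -h
    rw [e]
    exact (IsSumSq.mul_self _).add (IsSumSq.mul_self _)
  have h2 : IsIntegral ℚ (-1 : F) := isIntegral_one.neg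
  have h3 : minpoly ℚ (-1 : F) = Polynomial.X - Polynomial.C (-1) := by
    have e : (-1 : F) = algebraMap ℚ F (-1) := by rw [map_neg, map_one]
    rw [e]
    exact minpoly.eq_X_sub_C F (-1)
  have h4 := hF _ h1 h2 (-1) (by rw [h3]; simp)
  have h5 := h4.2
  simp at h5
  linarith

/-- The conjugates of `4 q₀² / N(q)`. -/
theorem TotNonneg.bound (hF : TotNonneg F) (q : Fin 4 → F) (hq : nn q ≠ 0)
    (hu : IsIntegral ℚ (4 * q 0 ^ 2 / nn q)) (z : ℂ)
    (hz : Polynomial.aeval z (minpoly ℚ (4 * q 0 ^ 2 / nn q)) = 0) :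
    z.im = 0 ∧ 0 ≤ z.re ∧ z.re ≤ 4 := by
  have hchar : CharZero F := algebraRat.charZero F
  obtain ⟨u, hu0⟩ : ∃ u, u = 4 * q 0 ^ 2 / nn q := ⟨_, rfl⟩
  rw [← hu0] at hu hz
  have hsum : ∀ c : F, IsSumSq (4 * c ^ 2 / nn q) := by
    intro c
    have e : 4 * c ^ 2 / nn q = (2 * c * q 0 / nn q) * (2 * c * q 0 / nn q) +
        (2 * c * q 1 / nn q) * (2 * c * q 1 / nn q) + (2 * c * q 2 / nn q) * (2 * c * q 2 / nn q) +
        (2 * c * q 3 / nn q) * (2 * c * q 3 / nn q) := by
      have e1 : 4 * c ^ 2 / nn q = 4 * c ^ 2 * nn q / (nn q * nn q) := by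
        field_simp
      rw [e1]
      have e2 : nn q = q 0 ^ 2 + q 1 ^ 2 + q 2 ^ 2 + q 3 ^ 2 := rfl
      have e3 : 4 * c ^ 2 * nn q = (2 * c * q 0) * (2 * c * q 0) + (2 * c * q 1) * (2 * c * q 1) +
          (2 * c * q 2) * (2 * c * q 2) + (2 * c * q 3) * (2 * c * q 3) := by
        rw [e2]
        ring
      rw [e3]
      field_simp
    rw [e]
    exact (((IsSumSq.mul_self _).add (IsSumSq.mul_self _)).add (IsSumSq.mul_self _)).add
      (IsSumSq.mul_self _)
  have h1 : IsSumSq u := by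
    rw [hu0]
    exact hsum (q 0)
  have h2 : IsSumSq (4 - u) := by
    have e : 4 - u = 4 * q 1 ^ 2 / nn q + 4 * q 2 ^ 2 / nn q + 4 * q 3 ^ 2 / nn q := by
      rw [hu0]
      field_simp
      unfold nn
      ring
    rw [e]
    exact ((hsum _).add (hsum _)).add (hsum _)
  obtain ⟨h3, h4⟩ := hF u h1 hu z hz
  have hu4 : IsIntegral ℚ (4 - u) := by
    have e4 : IsIntegral ℚ (4 : F) := by
      have : (4 : F) = algebraMap ℚ F 4 := by rw [map_ofNat]
      rw [this]
      exact isIntegral_algebraMap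
    exact e4.sub hu
  have h5 : Polynomial.aeval (4 - z) (minpoly ℚ (4 - u)) = 0 := by
    have h6 : minpoly ℚ u ∣ (minpoly ℚ (4 - u)).comp (Polynomial.C 4 - Polynomial.X) := by
      refine minpoly.dvd _ _ ?_
      rw [Polynomial.aeval_comp]
      simp
    obtain ⟨r, hr⟩ := h6
    have h7 := congrArg (Polynomial.aeval z) hr
    rw [map_mul, hz, zero_mul, Polynomial.aeval_comp] at h7
    simpa using h7
  obtain ⟨-, h6⟩ := hF _ h2 hu4 _ h5
  rw [Complex.sub_re] at h6
  refine ⟨h3, h4, ?_⟩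
  have h7 : (4 : ℂ).re = 4 := rfl
  rw [h7] at h6
  linarith

end

/-! ## The trees -/

/-- The rotation group. -/
abbrev SO3 (F : Type) [Field F] : Type := Matrix.specialOrthogonalGroup (Fin 3) F

theorem SO3.orth {F : Type} [Field F] (g : SO3 F) : g.1 * g.1ᵀ = 1 :=
  (Matrix.mem_orthogonalGroup_iff (Fin 3) F).1 (Matrix.mem_specialOrthogonalGroup_iff.1 g.2).1

theorem SO3.det {F : Type} [Field F] (g : SO3 F) : g.1.det = 1 :=
  (Matrix.mem_specialOrthogonalGroup_iff.1 g.2).2

/-- **Homomorphisms to the rotation group are linear data.** -/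
theorem linC_so3 (F : Type) [Field F] [Algebra ℚ F] (hF : TotNonneg F) {G : Type} [Group G]
    (τ : G →* SO3 F) : LinC τ := by
  classical
  intro K _ hK f₀
  obtain ⟨f, hf⟩ : ∃ f : K →* SO3 F, f = τ.comp f₀ := ⟨_, rfl⟩
  have hchar : CharZero F := algebraRat.charZero F
  obtain ⟨L, i1, i2, i3⟩ : ∃ (L : Type) (_ : Field L) (_ : Algebra F L), IsAlgClosed L :=
    ⟨AlgebraicClosure F, inferInstance, inferInstance, inferInstance⟩
  have hcharL : CharZero L := charZero_of_injective_algebraMap (algebraMap F L).injective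
  have htower : IsScalarTower ℚ F L := IsScalarTower.of_algebraMap_eq fun x =>
    RingHom.congr_fun (RingHom.ext_rat (algebraMap ℚ L) ((algebraMap F L).comp (algebraMap ℚ F))) x
  obtain ⟨w, hw⟩ : ∃ w : L, w * w = -1 := by
    obtain ⟨w, hw⟩ := IsAlgClosed.exists_eq_mul_self (-1 : L)
    exact ⟨w, hw.symm⟩
  -- the subgroup of the pairs
  let Pp : Subgroup (GL2 L × K) :=
    { carrier := {p | Lifts w p.1.val (f p.2).1}
      mul_mem' := fun {a b} ha hb => by
        change Lifts w (a.1 * b.1).val (f (a.2 * b.2)).1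
        rw [map_mul]
        exact Lifts.mul ha hb
      one_mem' := by
        change Lifts w (1 : GL2 L).val (f 1).1
        rw [map_one]
        exact lifts_one
      inv_mem' := fun {a} ha => by
        change Lifts w (a.1⁻¹).val (f a.2⁻¹).1
        refine Lifts.inv (x := a.1.val) (a := (f a.2).1) ha ?_ ?_ ?_
        · rw [← Units.val_mul, inv_mul_cancel, Units.val_one]
        · rw [← Units.val_mul, mul_inv_cancel, Units.val_one]
        · have h1 : f a.2 * f a.2⁻¹ = 1 := by rw [← map_mul, mul_inv_cancel, map_one]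
          exact congrArg Subtype.val h1 }
  have hq : ∀ k : K, ∃ q : Fin 4 → F, nn q ≠ 0 ∧
      (∀ i j, QQ (f k).1 i j * nn q = 4 * (q i * q j)) := fun k =>
    exists_q (f k).1 (SO3.orth _) (SO3.det _)
  have hx : ∀ k : K, ∃ x : GL2 L, (x, k) ∈ Pp := by
    intro k
    obtain ⟨q, h1, h2⟩ := hq k
    have h3 : IsUnit (XX w q : Matrix (Fin 2) (Fin 2) L) := by
      rw [Matrix.isUnit_iff_isUnit_det, XX_det w hw]
      exact (isUnit_iff_ne_zero.2 h1).map _
    obtain ⟨x, hx⟩ := h3
    refine ⟨x, ?_⟩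
    change Lifts w x.val (f k).1
    rw [hx]
    exact lifts_XX w hw _ q h1 h2
  choose x hx using hx
  obtain ⟨S, hS, hSf⟩ := Group.fg_iff.1 hK
  obtain ⟨Γ, hΓ⟩ : ∃ Γ : Subgroup (GL2 L × K),
    Γ = Subgroup.closure ((fun k => (x k, k)) '' S) := ⟨_, rfl⟩
  have hΓP : Γ ≤ Pp := by
    rw [hΓ, Subgroup.closure_le]
    rintro _ ⟨k, -, rfl⟩
    exact hx k
  have hfg : Group.FG Γ := by
    rw [hΓ]
    exact (Group.fg_iff_subgroup_fg _).2 ⟨(hSf.image _).toFinset, by rw [Set.Finite.coe_toFinset]⟩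
  let π : Γ →* K := (MonoidHom.snd _ _).comp Γ.subtype
  let ρ : Γ →* GL2 L := (MonoidHom.fst _ _).comp Γ.subtype
  have hπ : Function.Surjective π := by
    rw [← MonoidHom.range_eq_top, eq_top_iff, ← hS, Subgroup.closure_le]
    intro k hk
    have h1 : (x k, k) ∈ Γ := by
      rw [hΓ]
      exact Subgroup.subset_closure ⟨k, hk, rfl⟩
    exact ⟨⟨_, h1⟩, rfl⟩
  have hlift : ∀ γ : Γ, Lifts w (ρ γ).val (f (π γ)).1 := fun γ => hΓP γ.2
  have hker : ∀ γ, π γ = 1 → ∃ c : L, (ρ γ).val = c • 1 := by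
    intro γ hγ
    have h1 := hlift γ
    rw [hγ, map_one] at h1
    exact scalar_of_lifts_one hw h1
  refine (hasTrees_int π hπ L ρ hker).mono fun E hE => ⟨Empty, inferInstance, fun i => i.elim,
    fun k hk _ => ?_⟩
  obtain ⟨γ, rfl⟩ := hπ k
  obtain ⟨q, hq1, hq2⟩ := hq (π γ)
  have hu := hE γ hk
  -- comparison with the quaternion
  obtain ⟨X, hX⟩ : ∃ X : GL2 L, X.val = XX w q := by
    have h3 : IsUnit (XX w q : Matrix (Fin 2) (Fin 2) L) := by
      rw [Matrix.isUnit_iff_isUnit_det, XX_det w hw]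
      exact (isUnit_iff_ne_zero.2 hq1).map _
    exact h3
  have hXl : Lifts w X.val (f (π γ)).1 := by
    rw [hX]
    exact lifts_XX w hw _ q hq1 hq2
  obtain ⟨c, hc⟩ : ∃ c : L, (ρ γ).val = c • XX w q := by
    have h1 : Lifts w (X⁻¹).val ((f (π γ))⁻¹ : SO3 F).1 := by
      refine Lifts.inv hXl ?_ ?_ ?_
      · rw [← Units.val_mul, inv_mul_cancel, Units.val_one]
      · rw [← Units.val_mul, mul_inv_cancel, Units.val_one]
      · exact congrArg Subtype.val (mul_inv_cancel (f (π γ)))
    have h2 := Lifts.mul h1 (hlift γ)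
    have h3 : ((f (π γ))⁻¹ : SO3 F).1 * (f (π γ)).1 = 1 :=
      congrArg Subtype.val (inv_mul_cancel (f (π γ)))
    rw [h3] at h2
    obtain ⟨c, hc⟩ := scalar_of_lifts_one hw h2
    refine ⟨c, ?_⟩
    have h4 : (ρ γ).val = X.val * ((X⁻¹).val * (ρ γ).val) := by
      rw [← mul_assoc, ← Units.val_mul, mul_inv_cancel, Units.val_one, one_mul]
    rw [h4, hc, mul_smul_comm, mul_one, hX]
  have hc0 : c ≠ 0 := by
    rintro rfl
    refine DV.det_ne (ρ γ) ?_
    rw [hc, zero_smul, Matrix.det_zero]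
  have huu : (ρ γ).val.trace ^ 2 / (ρ γ).val.det = algebraMap F L (4 * q 0 ^ 2 / nn q) := by
    rw [hc, Matrix.trace_smul, Matrix.det_smul, XX_trace, XX_det w hw, Fintype.card_fin,
      map_div₀, smul_eq_mul, map_mul, map_mul, map_pow, map_ofNat, map_ofNat]
    have h5 : algebraMap F L (nn q) ≠ 0 := by
      rw [Ne, map_eq_zero_iff _ (algebraMap F L).injective]
      exact hq1
    field_simp
    ring
  have hu' : IsIntegral ℤ (algebraMap F L (4 * q 0 ^ 2 / nn q)) := by
    rw [← huu]
    exact hu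
  have huF : IsIntegral ℤ (4 * q 0 ^ 2 / nn q) :=
    (isIntegral_algebraMap_iff (algebraMap F L).injective).1 hu'
  have hmin : minpoly ℚ (algebraMap F L (4 * q 0 ^ 2 / nn q)) = minpoly ℚ (4 * q 0 ^ 2 / nn q) :=
    minpoly.algebraMap_eq (algebraMap F L).injective _
  obtain ⟨ζ, n, hn, hζ, huζ⟩ := exists_root (algebraMap F L (4 * q 0 ^ 2 / nn q)) hu' (by
    intro z hz
    rw [hmin] at hz
    exact hF.bound q hq1 huF.tower_top z hz)
  rw [← huu] at huζ
  obtain ⟨m, hm, c', hc'⟩ := exists_pow_scalar (ρ γ) ζ n hn hζ huζ (by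
    intro h6
    rw [huu] at h6
    have h7 : 4 * q 0 ^ 2 / nn q = 4 := (algebraMap F L).injective (by rw [h6, map_ofNat])
    rw [div_eq_iff hq1] at h7
    have h4 : (4 : F) ≠ 0 := by norm_num
    have h8 : q 1 ^ 2 + q 2 ^ 2 + q 3 ^ 2 = 0 := by
      refine mul_left_cancel₀ h4 ?_
      unfold nn at h7
      linear_combination -h7
    have g1 : q 1 = 0 := hF.sq_eq_zero _ _ _ h8
    have g2 : q 2 = 0 := hF.sq_eq_zero (q 2) (q 1) (q 3) (by linear_combination h8)
    have g3 : q 3 = 0 := hF.sq_eq_zero (q 3) (q 1) (q 2) (by linear_combination h8)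
    refine ⟨c * algebraMap F L (q 0), ?_⟩
    rw [hc, mul_smul]
    congr 1
    unfold XX
    rw [g1, g2, g3]
    refine Matrix.ext fun i j => ?_
    rw [Matrix.smul_apply, Matrix.one_apply]
    fin_cases i <;> fin_cases j <;> simp)
  -- the order
  have h9 : Lifts w ((ρ γ) ^ m).val ((f (π γ)) ^ m : SO3 F).1 := by
    have h10 := hlift (γ ^ m)
    rw [map_pow, map_pow, map_pow] at h10
    exact h10
  rw [hc'] at h9
  have hc'0 : c' ≠ 0 := by
    rintro rfl
    refine DV.det_ne ((ρ γ) ^ m) ?_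
    rw [hc', zero_smul, Matrix.det_zero]
  have h11 := eq_one_of_scalar hw hc'0 h9
  have h12 : (f (π γ)) ^ m = 1 := Subtype.ext h11
  have h13 : τ (f₀ (π γ)) = f (π γ) := by rw [hf]; rfl
  rw [h13]
  exact isOfFinOrder_iff_pow_eq_one.2 ⟨m, hm, h12⟩

end Pool.Agent.Lib.MP_551055_al.RO
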