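import Mathlib
import Pool.Agent.Lib.MP_551055_al.Trim.MT.Flow2
import Pool.Agent.Lib.MP_551055_al.Trim.MT.K1
import Pool.Agent.Lib.MP_551055_al.Trim.RO.Main
import Pool.Agent.Lib.MP_551055_al.Trim.T4.Ind0

/-!
# Fields in which algebraic sums of squares are totally nonnegative
-/

set_option autoImplicit false

namespace Pool.Agent.Lib.MP_551055_al
end Pool.Agent.Lib.MP_551055_al

namespace Pool.Agent.Lib.MP_551055_al.RO

open Pool.Agent.Lib.MP_551055_al

theorem isSumSq_map {A B : Type} [Semiring A] [Semiring B] (φ : A →+* B) {a : A}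
    (h : IsSumSq a) : IsSumSq (φ a) := by
  induction h with
  | zero =>
    rw [map_zero]
    exact IsSumSq.zero
  | sq_add x _ ih =>
    rw [map_add, map_mul]
    exact IsSumSq.sq_add _ ih

/-- Algebraic homomorphisms to fields with the property. -/
theorem TotNonneg.of_points {F : Type} [Field F] [Algebra ℚ F]
    (h : ∀ A : Subalgebra ℚ F, A.FG → ∃ (F' : Type) (_ : Field F') (_ : Algebra ℚ F'),
      TotNonneg F' ∧ Nonempty (A →ₐ[ℚ] F')) : TotNonneg F := by
  classical
  intro a ha hint z hz
  -- the finitely many elements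
  have key : ∀ b : F, IsSumSq b → ∃ s : Finset F, ∀ A : Subalgebra ℚ F, (∀ x ∈ s, x ∈ A) →
      ∃ hb : b ∈ A, IsSumSq (⟨b, hb⟩ : A) := by
    intro b hb
    induction hb with
    | zero => exact ⟨∅, fun A _ => ⟨A.zero_mem, IsSumSq.zero⟩⟩
    | sq_add x _ ih =>
      obtain ⟨s, hs⟩ := ih
      refine ⟨insert x s, fun A hA => ?_⟩
      obtain ⟨h1, h2⟩ := hs A fun y hy => hA y (Finset.mem_insert_of_mem hy)
      have h3 : x ∈ A := hA x (Finset.mem_insert_self _ _)
      exact ⟨A.add_mem (A.mul_mem h3 h3) h1, IsSumSq.sq_add ⟨x, h3⟩ h2⟩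
  obtain ⟨s, hs⟩ := key a ha
  obtain ⟨haA, h1⟩ := hs (Algebra.adjoin ℚ (s : Set F)) fun x hx => Algebra.subset_adjoin hx
  obtain ⟨F', i1, i2, hF', ⟨φ⟩⟩ := h _ ⟨s, rfl⟩
  have h2 : IsSumSq (φ ⟨a, haA⟩) := isSumSq_map φ.toRingHom h1
  have h3 : Polynomial.aeval (φ ⟨a, haA⟩) (minpoly ℚ a) = 0 := by
    rw [Polynomial.aeval_algHom_apply]
    have h4 : Polynomial.aeval (⟨a, haA⟩ : Algebra.adjoin ℚ (s : Set F)) (minpoly ℚ a) = 0 := by
      refine Subtype.ext ?_
      have h5 := Polynomial.aeval_algHom_apply (Algebra.adjoin ℚ (s : Set F)).val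
        (⟨a, haA⟩ : Algebra.adjoin ℚ (s : Set F)) (minpoly ℚ a)
      rw [ZeroMemClass.coe_zero]
      exact h5.symm.trans (minpoly.aeval ℚ a)
    rw [h4, map_zero]
  have h5 : minpoly ℚ a = minpoly ℚ (φ ⟨a, haA⟩) :=
    minpoly.eq_of_irreducible_of_monic (minpoly.irreducible hint) h3 (minpoly.monic hint)
  refine hF' _ h2 ⟨minpoly ℚ a, minpoly.monic hint, ?_⟩ z ?_
  · exact h3
  · rw [← h5]
    exact hz

/-- Algebraic fields all of whose embeddings are real. -/
theorem totNonneg_of_real {F : Type} [Field F] [Algebra ℚ F] [Algebra.IsAlgebraic ℚ F]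
    (h : ∀ (φ : F →+* ℂ) (x : F), (φ x).im = 0) : TotNonneg F := by
  intro a ha hint z hz
  have h1 : z ∈ (minpoly ℚ a).rootSet ℂ :=
    (Polynomial.mem_rootSet_of_ne (minpoly.ne_zero hint)).2 hz
  rw [← Algebra.IsAlgebraic.range_eval_eq_rootSet_minpoly ℂ a] at h1
  obtain ⟨φ, rfl⟩ := h1
  refine ⟨h φ.toRingHom a, ?_⟩
  have key : ∀ b : F, IsSumSq b → 0 ≤ (φ b).re := by
    intro b hb
    induction hb with
    | zero => simp
    | sq_add x _ ih =>
      rw [map_add, map_mul, Complex.add_re, Complex.mul_re]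
      have h2 : (φ x).im = 0 := h φ.toRingHom x
      rw [h2]
      nlinarith [mul_self_nonneg (φ x).re]
  exact key a ha

/-- Totally real number fields. -/
theorem totNonneg_numberField (K : Type) [Field K] [NumberField K]
    [NumberField.IsTotallyReal K] : TotNonneg K := by
  refine totNonneg_of_real fun φ x => ?_
  have h1 : NumberField.ComplexEmbedding.IsReal φ := by
    have h2 := NumberField.IsTotallyReal.isReal (K := K) (NumberField.InfinitePlace.mk φ)
    exact NumberField.InfinitePlace.isReal_mk_iff.1 h2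
  have h3 := RingHom.congr_fun h1 x
  exact Complex.conj_eq_iff_im.1 h3

/-- Points of finitely generated subalgebras of fields of rational functions. -/
theorem exists_point (X : Type) (k : Type) [Field k] [Infinite k] (K : Type) [Field K] [Algebra k K]
    [Algebra (MvPolynomial X k) K]
    [IsScalarTower k (MvPolynomial X k) K] [IsFractionRing (MvPolynomial X k) K]
    (A : Subalgebra k K) (hA : A.FG) : Nonempty (A →ₐ[k] k) := by
  classical
  obtain ⟨S, hS⟩ := hA
  obtain ⟨d, hd⟩ := IsLocalization.exist_integer_multiples_of_finset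
    (nonZeroDivisors (MvPolynomial X k)) S
  have hd0 : (d : MvPolynomial X k) ≠ 0 := nonZeroDivisors.ne_zero d.2
  obtain ⟨x, hx⟩ : ∃ x : X → k, MvPolynomial.eval x (d : MvPolynomial X k) ≠ 0 := by
    by_contra hcon
    push Not at hcon
    exact hd0 (MvPolynomial.funext fun x => by rw [hcon x, map_zero])
  have hinj : Function.Injective (algebraMap (MvPolynomial X k) K) :=
    IsFractionRing.injective (MvPolynomial X k) K
  -- the localisation
  obtain ⟨L, i1, i2, i3, i4, i5⟩ : ∃ (L : Type) (_ : CommRing L) (_ : Algebra k L)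
      (_ : Algebra (MvPolynomial X k) L) (_ : IsScalarTower k (MvPolynomial X k) L),
      IsLocalization (Submonoid.powers (d : MvPolynomial X k)) L :=
    ⟨Localization (Submonoid.powers (d : MvPolynomial X k)), inferInstance, inferInstance,
      inferInstance, inferInstance, inferInstance⟩
  have hu1 : ∀ y : Submonoid.powers (d : MvPolynomial X k),
      IsUnit (IsScalarTower.toAlgHom k (MvPolynomial X k) K y) := by
    rintro ⟨y, k, rfl⟩
    refine IsUnit.mk0 _ fun h => pow_ne_zero k hd0 (hinj ?_)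
    rw [map_zero]
    exact h
  have hu2 : ∀ y : Submonoid.powers (d : MvPolynomial X k),
      IsUnit (MvPolynomial.aeval (R := k) x y : k) := by
    rintro ⟨y, k', rfl⟩
    refine IsUnit.mk0 _ ?_
    show MvPolynomial.aeval x ((d : MvPolynomial X k) ^ k') ≠ 0
    rw [map_pow]
    exact pow_ne_zero k' (by rw [MvPolynomial.aeval_eq_eval]; exact hx)
  let f : L →ₐ[k] K := IsLocalization.liftAlgHom
    (M := Submonoid.powers (d : MvPolynomial X k)) hu1
  let g : L →ₐ[k] k := IsLocalization.liftAlgHom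
    (M := Submonoid.powers (d : MvPolynomial X k)) hu2
  have hf : ∀ p : MvPolynomial X k, f (algebraMap _ L p) = algebraMap _ K p := fun p =>
    IsLocalization.lift_eq hu1 p
  have hfinj : Function.Injective f := by
    rw [injective_iff_map_eq_zero]
    intro z hz
    obtain ⟨p, m, hp⟩ := IsLocalization.exists_mk'_eq (Submonoid.powers (d : MvPolynomial X k)) z
    have h1 : z * algebraMap _ L (m : MvPolynomial X k) = algebraMap _ L p := by
      rw [← hp, IsLocalization.mk'_spec]
    have h2 : f (algebraMap _ L p) = 0 := by rw [← h1, map_mul, hz, zero_mul]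
    rw [hf] at h2
    have h3 : p = 0 := hinj (by rw [h2, map_zero])
    rw [← hp, h3, IsLocalization.mk'_zero]
  have hrange : A ≤ f.range := by
    rw [← hS]
    refine Algebra.adjoin_le fun a ha => ?_
    obtain ⟨p, hp⟩ := hd a ha
    have hdu : IsUnit (algebraMap (MvPolynomial X k) L d) :=
      IsLocalization.map_units L (⟨d, 1, pow_one _⟩ : Submonoid.powers (d : MvPolynomial X k))
    obtain ⟨u, hu⟩ := hdu
    refine ⟨algebraMap _ L p * (u⁻¹ : Lˣ), ?_⟩
    have h1 : algebraMap (MvPolynomial X k) K p = algebraMap (MvPolynomial X k) K d * a := by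
      rw [hp]
      exact Algebra.smul_def _ _
    have h2 : f (u⁻¹ : Lˣ) * algebraMap (MvPolynomial X k) K d = 1 := by
      rw [← hf, ← hu, ← map_mul, Units.inv_mul, map_one]
    show f (algebraMap _ L p * (u⁻¹ : Lˣ)) = a
    rw [map_mul, hf, h1]
    calc algebraMap (MvPolynomial X k) K d * a * f (u⁻¹ : Lˣ)
        = (f (u⁻¹ : Lˣ) * algebraMap (MvPolynomial X k) K d) * a := by ring
      _ = a := by rw [h2, one_mul]
  exact ⟨g.comp ((AlgEquiv.ofInjective f hfinj).symm.toAlgHom.comp (Subalgebra.inclusion hrange))⟩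

/-- **Rational functions over a field with the property.** -/
theorem totNonneg_rational (X : Type) (k : Type) [Field k] [Algebra ℚ k] (hk : TotNonneg k)
    (K : Type) [Field K] [Algebra ℚ K] [Algebra k K] [Algebra (MvPolynomial X k) K]
    [IsScalarTower k (MvPolynomial X k) K] [IsFractionRing (MvPolynomial X k) K] :
    TotNonneg K := by
  have hchar : CharZero k := algebraRat.charZero k
  have htower : IsScalarTower ℚ k K := IsScalarTower.of_algebraMap_eq fun x =>
    RingHom.congr_fun (RingHom.ext_rat (algebraMap ℚ K) ((algebraMap k K).comp (algebraMap ℚ k))) x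
  refine TotNonneg.of_points fun A hA => ⟨k, inferInstance, inferInstance, hk, ?_⟩
  obtain ⟨S, hS⟩ := hA
  obtain ⟨φ⟩ := exists_point X k K (Algebra.adjoin k (S : Set K)) ⟨S, rfl⟩
  have hle : ∀ x ∈ A, x ∈ Algebra.adjoin k (S : Set K) := by
    intro x hx
    rw [← hS] at hx
    have h1 : Algebra.adjoin ℚ (S : Set K) ≤
        (Algebra.adjoin k (S : Set K)).restrictScalars ℚ :=
      Algebra.adjoin_le Algebra.subset_adjoin
    exact h1 hx
  let incl : A →+* Algebra.adjoin k (S : Set K) :=
    { toFun := fun x => ⟨x.1, hle x.1 x.2⟩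
      map_one' := rfl
      map_mul' := fun _ _ => rfl
      map_zero' := rfl
      map_add' := fun _ _ => rfl }
  exact ⟨(φ.toRingHom.comp incl).toRatAlgHom⟩

end Pool.Agent.Lib.MP_551055_al.RO
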