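import Mathlib
import Pool.Agent.Lib.MP_551055_al.Trim.BT.DV
import Pool.Agent.Lib.MP_551055_al.Trim.BT.FinOrd
import Pool.Agent.Lib.MP_551055_al.Trim.BT.Lift
import Pool.Agent.Lib.MP_551055_al.Trim.BT.Mixed
import Pool.Agent.Lib.MP_551055_al.Trim.BT.Places
import Pool.Agent.Lib.MP_551055_al.Trim.BT.SL2Z
import Pool.Agent.Lib.MP_551055_al.Trim.BT.Tree
import Pool.Agent.Lib.MP_551055_al.Trim.BT.Unip
import Pool.Agent.Lib.MP_551055_al.Trim.GL.Chars
import Pool.Agent.Lib.MP_551055_al.Trim.GL.TreesF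
import Pool.Agent.Lib.MP_551055_al.Trim.LS.Pos
import Pool.Agent.Lib.MP_551055_al.Trim.LS.Stmts
import Pool.Agent.Lib.MP_551055_al.Trim.MT.Flow2
import Pool.Agent.Lib.MP_551055_al.Trim.MT.K1
import Pool.Agent.Lib.MP_551055_al.Trim.RO.Int
import Pool.Agent.Lib.MP_551055_al.Trim.RO.Proj
import Pool.Agent.Lib.MP_551055_al.Trim.T4.Ind0

/-!
# Projective representations of dimension two in positive characteristic

The automorphisms of the matrix algebra of size two over a ring which has a homomorphism to a field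
of positive characteristic.
-/

set_option autoImplicit false

namespace Pool.Agent.Lib.MP_551055_al
end Pool.Agent.Lib.MP_551055_al

namespace Pool.Agent.Lib.MP_551055_al.LS
end Pool.Agent.Lib.MP_551055_al.LS

namespace Pool.Agent.Lib.MP_551055_al.BT
end Pool.Agent.Lib.MP_551055_al.BT

namespace Pool.Agent.Lib.MP_551055_al.GL
end Pool.Agent.Lib.MP_551055_al.GL

namespace Pool.Agent.Lib.MP_551055_al.RO

open Matrix

open Pool.Agent.Lib.MP_551055_al

open Pool.Agent.Lib.MP_551055_al.LS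

open Pool.Agent.Lib.MP_551055_al.BT

open Pool.Agent.Lib.MP_551055_al.GL (HasTrees.all exists_entries)

section

variable {Γ K : Type} [Group Γ] [Group K] (π : Γ →* K) (hπ : Function.Surjective π)

include hπ

/-- The places of a finitely generated field. -/
theorem hasTrees_ess (p : ℕ) [Fact p.Prime] (L : Type) [Field L] [Algebra (ZMod p) L]
    [Algebra.EssFiniteType (ZMod p) L] (S : Finset L) (ρ : Γ →* GL2 L)
    (hent : ∀ g i j, (ρ g).val i j ∈ Algebra.adjoin (ZMod p) (S : Set L))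
    (hker : ∀ γ, π γ = 1 → ∃ c : L, (ρ γ).val = c • 1) :
    HasTrees K fun E => ∀ γ, π γ ∈ E → IsIntegral (ZMod p) (uu (ρ γ)) := by
  obtain ⟨W, hW, hW'⟩ := exists_places p L S
  have : Finite W := hW
  refine (HasTrees.all fun v : W => hasTrees_dv v.1 π hπ ρ hker).mono fun E hE γ hγ =>
    hW' _ ?_ fun v hv => hE ⟨v, hv⟩ γ hγ
  rw [uu_eq_ua]
  unfold ua
  rw [← map_inv, Matrix.trace_fin_two, Matrix.det_fin_two]
  exact mul_mem (pow_mem (add_mem (hent γ 0 0) (hent γ 1 1)) 2)
    (sub_mem (mul_mem (hent _ 0 0) (hent _ 1 1)) (mul_mem (hent _ 0 1) (hent _ 1 0)))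

/-- **Algebraic invariants.** -/
theorem hasTrees_alg (p : ℕ) [Fact p.Prime] (F : Type) [Field F] [Algebra (ZMod p) F]
    [Group.FG Γ] (ρ : Γ →* GL2 F) (hker : ∀ γ, π γ = 1 → ∃ c : F, (ρ γ).val = c • 1) :
    HasTrees K fun E => ∀ γ, π γ ∈ E → IsIntegral (ZMod p) (uu (ρ γ)) := by
  classical
  obtain ⟨E, hE⟩ := exists_entries ρ
  obtain ⟨L, hL⟩ : ∃ L : IntermediateField (ZMod p) F,
    L = IntermediateField.adjoin (ZMod p) (E : Set F) := ⟨_, rfl⟩
  have hess : Algebra.EssFiniteType (ZMod p) L := by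
    rw [IntermediateField.essFiniteType_iff, hL]
    exact IntermediateField.fg_adjoin_finset E
  have hEL : ∀ e ∈ E, e ∈ L := by
    intro e he
    rw [hL]
    exact IntermediateField.subset_adjoin _ _ he
  let S : Finset L := E.attach.image fun e => ⟨e.1, hEL e.1 e.2⟩
  have hS : ∀ x ∈ Subring.closure (E : Set F), ∃ a : L, a ∈ Algebra.adjoin (ZMod p) (S : Set L) ∧
      (a : F) = x := by
    intro x hx
    induction hx using Subring.closure_induction with
    | mem x hx =>
      refine ⟨⟨x, hEL x hx⟩, Algebra.subset_adjoin ?_, rfl⟩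
      exact Finset.mem_coe.2 (Finset.mem_image.2 ⟨⟨x, hx⟩, Finset.mem_attach _ _, rfl⟩)
    | zero => exact ⟨0, zero_mem _, rfl⟩
    | one => exact ⟨1, one_mem _, rfl⟩
    | add x y _ _ h1 h2 =>
      obtain ⟨a, ha, rfl⟩ := h1
      obtain ⟨b, hb, rfl⟩ := h2
      exact ⟨a + b, add_mem ha hb, rfl⟩
    | neg x _ h1 =>
      obtain ⟨a, ha, rfl⟩ := h1
      exact ⟨-a, neg_mem ha, rfl⟩
    | mul x y _ _ h1 h2 =>
      obtain ⟨a, ha, rfl⟩ := h1
      obtain ⟨b, hb, rfl⟩ := h2
      exact ⟨a * b, mul_mem ha hb, rfl⟩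
  obtain ⟨ρL, hρL⟩ := exists_lift (algebraMap L F) (algebraMap L F).injective ρ fun g i j => by
    obtain ⟨a, -, ha⟩ := hS _ (hE g i j)
    exact ⟨a, ha⟩
  have hent : ∀ g i j, (ρL g).val i j ∈ Algebra.adjoin (ZMod p) (S : Set L) := by
    intro g i j
    obtain ⟨a, ha1, ha⟩ := hS _ (hE g i j)
    have h1 : (((ρL g).val i j : L) : F) = (ρ g).val i j := congrFun (congrFun (hρL g) i) j
    have h2 : (ρL g).val i j = a := Subtype.ext (h1.trans ha.symm)
    rw [h2]
    exact ha1
  have hkerL : ∀ γ, π γ = 1 → ∃ c : L, (ρL γ).val = c • 1 := by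
    intro γ hγ
    obtain ⟨c, hc⟩ := hker γ hγ
    rw [← hρL] at hc
    have h1 : ∀ i j, (((ρL γ).val i j : L) : F) = (c • (1 : Matrix (Fin 2) (Fin 2) F)) i j :=
      fun i j => congrFun (congrFun hc i) j
    have e00 := h1 0 0
    have e01 := h1 0 1
    have e10 := h1 1 0
    have e11 := h1 1 1
    rw [Matrix.smul_apply, Matrix.one_apply_eq, smul_eq_mul, mul_one] at e00 e11
    rw [Matrix.smul_apply, Matrix.one_apply_ne (by decide), smul_zero] at e01 e10
    refine ⟨(ρL γ).val 0 0, Matrix.ext fun i j => Subtype.ext ?_⟩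
    rw [Matrix.smul_apply, smul_eq_mul, Matrix.one_apply]
    fin_cases i <;> fin_cases j
    · simp
    · simpa using e01
    · simpa using e10
    · simpa using e11.trans e00.symm
  refine (hasTrees_ess π hπ p L S ρL hent hkerL).mono fun H hH γ hγ => ?_
  have h1 := hH γ hγ
  have h2 : uu (ρ γ) = algebraMap L F (uu (ρL γ)) := by
    have h3 : Matrix.GeneralLinearGroup.map (algebraMap L F) (ρL γ) = ρ γ := Units.ext (hρL γ)
    rw [uu_eq_ua, uu_eq_ua, ← h3, ua_map]
  rw [h2]
  exact h1.algebraMap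

omit hπ in
/-- A matrix with algebraic invariant has a scalar power. -/
theorem exists_pow_scalar_alg (p : ℕ) [Fact p.Prime] (F : Type) [Field F] [Algebra (ZMod p) F]
    (g : GL2 F) (h : IsIntegral (ZMod p) (uu g)) :
    ∃ m : ℕ, 0 < m ∧ ∃ c : F, (g ^ m).val = c • 1 := by
  have hd := DV.det_ne g
  obtain ⟨d, hd'⟩ : ∃ d, d = g.val.det := ⟨_, rfl⟩
  rw [← hd'] at hd
  obtain ⟨M, hM⟩ : ∃ M : Matrix (Fin 2) (Fin 2) F, M = d⁻¹ • (g.val * g.val) := ⟨_, rfl⟩
  have hdet : M.det = 1 := by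
    rw [hM, Matrix.det_smul, Matrix.det_mul, ← hd', Fintype.card_fin]
    field_simp
  have htr : M.trace = uu g - 2 := by
    rw [hM, Matrix.trace_smul]
    unfold uu
    rw [← hd']
    have h1 : (g.val * g.val).trace = g.val.trace ^ 2 - 2 * d := by
      rw [hd', Matrix.trace_fin_two, Matrix.trace_fin_two, Matrix.det_fin_two, Matrix.mul_apply,
        Matrix.mul_apply, Fin.sum_univ_two, Fin.sum_univ_two]
      ring
    rw [h1, smul_eq_mul]
    field_simp
  let x : GL2 F := Matrix.GeneralLinearGroup.mkOfDetNeZero M (by rw [hdet]; exact one_ne_zero)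
  have hx : x.val = M := rfl
  have h2 : IsIntegral (ZMod p) (2 : F) := by
    have : (2 : F) = algebraMap (ZMod p) F 2 := by rw [map_ofNat]
    rw [this]
    exact isIntegral_algebraMap
  obtain ⟨m, hm, hm1⟩ := isOfFinOrder_iff_pow_eq_one.1 (isOfFinOrder_of_algebraic p x
    (by rw [hx, htr]; exact h.sub h2) (by rw [hx, hdet]; exact isIntegral_one))
  refine ⟨2 * m, by omega, d ^ m, ?_⟩
  have h3 : M ^ m = 1 := by
    rw [← hx, ← Units.val_pow_eq_pow_val, hm1, Units.val_one]
  rw [hM, smul_pow, ← pow_two, ← pow_mul, inv_pow] at h3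
  rw [Units.val_pow_eq_pow_val]
  calc g.val ^ (2 * m) = (d ^ m) • ((d ^ m)⁻¹ • g.val ^ (2 * m)) := by
        rw [smul_smul, mul_inv_cancel₀ (pow_ne_zero _ hd), one_smul]
    _ = _ := by rw [h3]

end

/-! ## The matrix units -/

/-- The automorphisms of the matrix algebra of size two. -/
abbrev AutM (R : Type) [CommRing R] : Type :=
  Matrix (Fin 2) (Fin 2) R ≃ₐ[R] Matrix (Fin 2) (Fin 2) R

section

variable {R F : Type} [CommRing R] [Field F] (h : R →+* F)

/-- The images of the matrix units. -/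
noncomputable def mu (σ : AutM R) (i j : Fin 2) : Matrix (Fin 2) (Fin 2) F :=
  (σ (Matrix.single i j 1)).map h

theorem mu_mul (σ : AutM R) (i j k : Fin 2) : mu h σ i j * mu h σ j k = mu h σ i k := by
  unfold mu
  rw [← Matrix.map_mul, ← map_mul, Matrix.single_mul_single_same, mul_one]

theorem mu_mul_ne (σ : AutM R) (i j k l : Fin 2) (hjk : j ≠ k) :
    mu h σ i j * mu h σ k l = 0 := by
  unfold mu
  rw [← Matrix.map_mul, ← map_mul, Matrix.single_mul_single_of_ne (h := hjk), map_zero]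
  ext
  simp

theorem mu_one (σ : AutM R) : mu h σ 0 0 + mu h σ 1 1 = 1 := by
  unfold mu
  rw [← Matrix.map_add _ (map_add h), ← map_add]
  have h1 : (Matrix.single 0 0 1 + Matrix.single 1 1 1 : Matrix (Fin 2) (Fin 2) R) = 1 := by
    ext i j
    fin_cases i <;> fin_cases j <;> simp [Matrix.single]
  rw [h1, map_one, Matrix.map_one _ (map_zero h) (map_one h)]

theorem map_aut (σ : AutM R) (y : Matrix (Fin 2) (Fin 2) R) :
    (σ y).map h = ∑ i, ∑ j, h (y i j) • mu h σ i j := by
  conv_lhs => rw [Matrix.matrix_eq_sum_single y]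
  have h1 : ∀ i j, Matrix.single i j (y i j) = y i j • Matrix.single i j (1 : R) := by
    intro i j
    rw [Matrix.smul_single, smul_eq_mul, mul_one]
  rw [← RingHom.mapMatrix_apply]
  rw [map_sum, map_sum]
  refine Finset.sum_congr rfl fun i _ => ?_
  rw [map_sum, map_sum]
  refine Finset.sum_congr rfl fun j _ => ?_
  rw [h1, map_smul]
  ext a b
  simp [mu]

/-- **Skolem–Noether.** -/
theorem exists_conj (σ : AutM R) : ∃ x : GL2 F, ∀ y : Matrix (Fin 2) (Fin 2) R,
    (σ y).map h * x.val = x.val * y.map h := by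
  have h0 : mu h σ 0 0 ≠ 0 := by
    intro h0
    have h1 : mu h σ 1 1 = 0 := by
      rw [← mu_mul h σ 1 0 1, ← mu_mul h σ 0 0 1, h0, zero_mul, mul_zero]
    have h2 := mu_one h σ
    rw [h0, h1, add_zero] at h2
    have h3 := congrFun (congrFun h2 0) 0
    rw [Matrix.one_apply_eq] at h3
    exact zero_ne_one h3
  obtain ⟨a, b, hab⟩ : ∃ a b, mu h σ 0 0 a b ≠ 0 := by
    by_contra hcon
    push Not at hcon
    exact h0 (Matrix.ext fun i j => hcon i j)
  obtain ⟨c, hc⟩ : ∃ c, c = mu h σ 0 0 a b := ⟨_, rfl⟩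
  rw [← hc] at hab
  let X : Matrix (Fin 2) (Fin 2) F := Matrix.of fun i k => mu h σ k 0 i b
  let Y : Matrix (Fin 2) (Fin 2) F := Matrix.of fun k j => c⁻¹ * mu h σ 0 k a j
  have hYX : Y * X = 1 := by
    ext k l
    have h1 : (Y * X) k l = c⁻¹ * (mu h σ 0 k * mu h σ l 0) a b := by
      rw [Matrix.mul_apply, Matrix.mul_apply, Finset.mul_sum]
      refine Finset.sum_congr rfl fun j _ => ?_
      show c⁻¹ * mu h σ 0 k a j * mu h σ l 0 j b = _
      ring
    rw [h1]
    by_cases hkl : k = l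
    · subst hkl
      rw [mu_mul, ← hc, inv_mul_cancel₀ hab, Matrix.one_apply_eq]
    · rw [mu_mul_ne h σ _ _ _ _ hkl, Matrix.one_apply_ne hkl, Matrix.zero_apply, mul_zero]
  have hXY : X * Y = 1 := mul_eq_one_comm.1 hYX
  refine ⟨⟨X, Y, hXY, hYX⟩, fun y => ?_⟩
  show (σ y).map h * X = X * y.map h
  have key : ∀ k l, mu h σ k l * X = X * (Matrix.single k l (1 : F)) := by
    intro k l
    ext i m
    have h1 : (mu h σ k l * X) i m = (mu h σ k l * mu h σ m 0) i b := by
      rw [Matrix.mul_apply, Matrix.mul_apply]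
      rfl
    rw [h1]
    by_cases hlm : l = m
    · subst hlm
      rw [mu_mul, Matrix.mul_single_apply_same, mul_one]
      rfl
    · rw [mu_mul_ne h σ _ _ _ _ hlm, Matrix.zero_apply, Matrix.mul_single_apply_of_ne]
      exact fun h => hlm h.symm
  rw [map_aut, Finset.sum_mul]
  conv_rhs => rw [Matrix.matrix_eq_sum_single (y.map h)]
  rw [Finset.mul_sum]
  refine Finset.sum_congr rfl fun i _ => ?_
  rw [Finset.sum_mul, Finset.mul_sum]
  refine Finset.sum_congr rfl fun j _ => ?_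
  rw [smul_mul_assoc, key, ← mul_smul_comm, Matrix.smul_single, smul_eq_mul, mul_one]
  rfl

/-- Matrices which commute with the matrix units are scalar. -/
theorem scalar_of_comm (x : Matrix (Fin 2) (Fin 2) F)
    (hx : ∀ y : Matrix (Fin 2) (Fin 2) R, y.map h * x = x * y.map h) : ∃ c : F, x = c • 1 := by
  have h1 := hx (Matrix.single 0 0 1)
  have h2 := hx (Matrix.single 0 1 1)
  have e1 : (Matrix.single 0 0 (1 : R)).map h = !![1, 0; 0, 0] := by
    ext i j
    fin_cases i <;> fin_cases j <;> simp [Matrix.single]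
  have e2 : (Matrix.single 0 1 (1 : R)).map h = !![0, 1; 0, 0] := by
    ext i j
    fin_cases i <;> fin_cases j <;> simp [Matrix.single]
  rw [e1] at h1
  rw [e2] at h2
  have f1 := congrFun (congrFun h1 0) 1
  have f2 := congrFun (congrFun h1 1) 0
  have f3 := congrFun (congrFun h2 0) 1
  simp only [Matrix.mul_apply, Fin.sum_univ_two, Matrix.of_apply, Matrix.cons_val_zero,
    Matrix.cons_val_one] at f1 f2 f3
  simp at f1 f2 f3
  refine ⟨x 0 0, Matrix.ext fun i j => ?_⟩
  rw [Matrix.smul_apply, Matrix.one_apply, smul_eq_mul]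
  fin_cases i <;> fin_cases j
  · simp
  · simpa using f1
  · simpa using f2.symm
  · simpa using f3

end

end Pool.Agent.Lib.MP_551055_al.RO
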