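import Mathlib
import Pool.Agent.Lib.MP_551055_al.Trim.BT.Mixed
import Pool.Agent.Lib.MP_551055_al.Trim.BT.Tree
import Pool.Agent.Lib.MP_551055_al.Trim.BT.Unip
import Pool.Agent.Lib.MP_551055_al.Trim.GL.Chars
import Pool.Agent.Lib.MP_551055_al.Trim.JK.BC
import Pool.Agent.Lib.MP_551055_al.Trim.JK.Planes
import Pool.Agent.Lib.MP_551055_al.Trim.MT.Flow2
import Pool.Agent.Lib.MP_551055_al.Trim.MT.K1
import Pool.Agent.Lib.MP_551055_al.Trim.RO.PGL1
import Pool.Agent.Lib.MP_551055_al.Trim.RO.Proj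
import Pool.Agent.Lib.MP_551055_al.Trim.T4.Ind0

/-!
# Automorphisms of the matrix algebra of size two over a ring of positive characteristic
-/

set_option autoImplicit false

namespace Pool.Agent.Lib.MP_551055_al
end Pool.Agent.Lib.MP_551055_al

namespace Pool.Agent.Lib.MP_551055_al.LS
end Pool.Agent.Lib.MP_551055_al.LS

namespace Pool.Agent.Lib.MP_551055_al.BT
end Pool.Agent.Lib.MP_551055_al.BT

namespace Pool.Agent.Lib.MP_551055_al.GL
end Pool.Agent.Lib.MP_551055_al.GL

namespace Pool.Agent.Lib.MP_551055_al.JK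
end Pool.Agent.Lib.MP_551055_al.JK

namespace Pool.Agent.Lib.MP_551055_al.RO

open Matrix

open Pool.Agent.Lib.MP_551055_al

open Pool.Agent.Lib.MP_551055_al.LS

open Pool.Agent.Lib.MP_551055_al.BT

open Pool.Agent.Lib.MP_551055_al.GL (HasTrees.all)

open Pool.Agent.Lib.MP_551055_al.JK (LinC EIn end_pow_eq_one)

/-- A homomorphism to a field of positive characteristic whose kernel is a given prime ideal. -/
theorem exists_residue (R : Type) [CommRing R] (n : ℕ) (hn : n ≠ 0) (hR : (n : R) = 0)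
    (P : Ideal R) [P.IsPrime] :
    ∃ (p : ℕ) (_ : Fact p.Prime) (F : Type) (_ : Field F) (_ : Algebra (ZMod p) F) (h : R →+* F),
      ∀ a, h a = 0 → a ∈ P := by
  obtain ⟨F, i1, i2, i3⟩ : ∃ (F : Type) (_ : Field F) (_ : Algebra (R ⧸ P) F),
      IsFractionRing (R ⧸ P) F := ⟨FractionRing (R ⧸ P), inferInstance, inferInstance, inferInstance⟩
  have hnF : (n : F) = 0 := by
    have h1 : algebraMap (R ⧸ P) F (Ideal.Quotient.mk P n) = 0 := by rw [hR, map_zero, map_zero]
    rwa [map_natCast, map_natCast] at h1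
  obtain ⟨p, hp⟩ := CharP.exists F
  have hp0 : p ≠ 0 := by
    rintro rfl
    have h1 := (CharP.cast_eq_zero_iff F 0 n).1 hnF
    exact hn (zero_dvd_iff.1 h1)
  have hpp : p.Prime := (CharP.char_is_prime_or_zero F p).resolve_right hp0
  have hfact : Fact p.Prime := ⟨hpp⟩
  let alg : Algebra (ZMod p) F := ZMod.algebra F p
  refine ⟨p, hfact, F, i1, alg, (algebraMap (R ⧸ P) F).comp (Ideal.Quotient.mk P), fun a ha => ?_⟩
  have h1 := (map_eq_zero_iff _ (IsFractionRing.injective (R ⧸ P) F)).1 ha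
  exact Ideal.Quotient.eq_zero_iff_mem.1 h1

/-- **The trees for one prime ideal.** -/
theorem hasTrees_prime (R : Type) [CommRing R] (n : ℕ) (hn : n ≠ 0) (hR : (n : R) = 0)
    (P : Ideal R) [P.IsPrime] {K : Type} [Group K] [hK : Group.FG K] (f : K →* AutM R) :
    HasTrees K fun E => ∀ γ ∈ E, ∃ m : ℕ, 0 < m ∧
      ∀ (y : Matrix (Fin 2) (Fin 2) R) (i j : Fin 2), (f (γ ^ m) y - y) i j ∈ P := by
  classical
  obtain ⟨p, hp, F, i1, i2, h, hker⟩ := exists_residue R n hn hR P
  let Pp : Subgroup (GL2 F × K) :=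
    { carrier := {q | ∀ y : Matrix (Fin 2) (Fin 2) R,
        (f q.2 y).map h * q.1.val = q.1.val * y.map h}
      mul_mem' := fun {a b} ha hb => by
        intro y
        change (f (a.2 * b.2) y).map h * (a.1 * b.1).val = (a.1 * b.1).val * y.map h
        rw [map_mul, Units.val_mul]
        change (f a.2 (f b.2 y)).map h * (a.1.val * b.1.val) = _
        rw [← mul_assoc, ha (f b.2 y), mul_assoc, hb y, mul_assoc]
      one_mem' := by
        intro y
        change (f 1 y).map h * (1 : GL2 F).val = (1 : GL2 F).val * y.map h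
        rw [map_one, Units.val_one, mul_one, one_mul]
        rfl
      inv_mem' := fun {a} ha => by
        intro y
        change (f a.2⁻¹ y).map h * (a.1⁻¹).val = (a.1⁻¹).val * y.map h
        have h1 := ha (f a.2⁻¹ y)
        have h2 : f a.2 (f a.2⁻¹ y) = y := by
          have h3 : (f a.2 * f a.2⁻¹) y = y := by
            rw [← map_mul, mul_inv_cancel, map_one]
            rfl
          exact h3
        rw [h2] at h1
        have h4 : a.1.val * (a.1⁻¹).val = 1 := by
          rw [← Units.val_mul, mul_inv_cancel, Units.val_one]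
        have h5 : (a.1⁻¹).val * a.1.val = 1 := by
          rw [← Units.val_mul, inv_mul_cancel, Units.val_one]
        calc (f a.2⁻¹ y).map h * (a.1⁻¹).val
            = (a.1⁻¹).val * (a.1.val * (f a.2⁻¹ y).map h) * (a.1⁻¹).val := by
              rw [← mul_assoc, h5, one_mul]
          _ = (a.1⁻¹).val * y.map h := by rw [← h1, mul_assoc, mul_assoc, h4, mul_one] }
  have hx : ∀ k : K, ∃ x : GL2 F, (x, k) ∈ Pp := fun k => exists_conj h (f k)
  choose x hx using hx
  obtain ⟨S, hS, hSf⟩ := Group.fg_iff.1 hK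
  obtain ⟨Γ, hΓ⟩ : ∃ Γ : Subgroup (GL2 F × K),
    Γ = Subgroup.closure ((fun k => (x k, k)) '' S) := ⟨_, rfl⟩
  have hΓP : Γ ≤ Pp := by
    rw [hΓ, Subgroup.closure_le]
    rintro _ ⟨k, -, rfl⟩
    exact hx k
  have hfg : Group.FG Γ := by
    rw [hΓ]
    exact (Group.fg_iff_subgroup_fg _).2 ⟨(hSf.image _).toFinset, by rw [Set.Finite.coe_toFinset]⟩
  let π : Γ →* K := (MonoidHom.snd _ _).comp Γ.subtype
  let ρ : Γ →* GL2 F := (MonoidHom.fst _ _).comp Γ.subtype
  have hπ : Function.Surjective π := by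
    rw [← MonoidHom.range_eq_top, eq_top_iff, ← hS, Subgroup.closure_le]
    intro k hk
    have h1 : (x k, k) ∈ Γ := by
      rw [hΓ]
      exact Subgroup.subset_closure ⟨k, hk, rfl⟩
    exact ⟨⟨_, h1⟩, rfl⟩
  have hlift : ∀ (γ : Γ) (y : Matrix (Fin 2) (Fin 2) R),
      (f (π γ) y).map h * (ρ γ).val = (ρ γ).val * y.map h := fun γ => hΓP γ.2
  have hkerπ : ∀ γ, π γ = 1 → ∃ c : F, (ρ γ).val = c • 1 := by
    intro γ hγ
    refine scalar_of_comm h (ρ γ).val fun y => ?_
    have h1 := hlift γ y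
    rw [hγ, map_one] at h1
    exact h1
  refine (hasTrees_alg π hπ p F ρ hkerπ).mono fun E hE k hk => ?_
  obtain ⟨γ, rfl⟩ := hπ k
  obtain ⟨m, hm, c, hc⟩ := exists_pow_scalar_alg p F (ρ γ) (hE γ hk)
  refine ⟨m, hm, fun y i j => hker _ ?_⟩
  have h1 := hlift (γ ^ m) y
  rw [map_pow ρ, hc, mul_smul_comm, mul_one, smul_mul_assoc, one_mul] at h1
  have hc0 : c ≠ 0 := by
    rintro rfl
    refine DV.det_ne ((ρ γ) ^ m) ?_
    rw [hc, zero_smul, Matrix.det_zero]
  have h2 := smul_right_injective _ hc0 h1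
  have h3 : h (f (π (γ ^ m)) y i j) = h (y i j) := congrFun (congrFun h2 i) j
  rw [Matrix.sub_apply, map_sub, ← map_pow π, h3, sub_self]

theorem aut_apply {R : Type} [CommRing R] (σ : AutM R) (y : Matrix (Fin 2) (Fin 2) R)
    (a b : Fin 2) : σ y a b = ∑ i, ∑ j, y i j * σ (Matrix.single i j 1) a b := by
  conv_lhs => rw [Matrix.matrix_eq_sum_single y]
  have h1 : ∀ i j, Matrix.single i j (y i j) = y i j • Matrix.single i j (1 : R) := by
    intro i j
    rw [Matrix.smul_single, smul_eq_mul, mul_one]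
  rw [map_sum, Matrix.sum_apply]
  refine Finset.sum_congr rfl fun i _ => ?_
  rw [map_sum, Matrix.sum_apply]
  refine Finset.sum_congr rfl fun j _ => ?_
  rw [h1, map_smul, Matrix.smul_apply, smul_eq_mul]

theorem closure_ft {R : Type} [CommRing R] (E : Set R) (hEf : E.Finite) :
    Algebra.FiniteType ℤ (Subring.closure E) := by
  have hpre : (((↑) : Subring.closure E → R) ⁻¹' E).Finite :=
    hEf.preimage (Subtype.val_injective.injOn)
  refine ⟨⟨hpre.toFinset, ?_⟩⟩
  rw [Set.Finite.coe_toFinset, eq_top_iff]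
  rintro ⟨x, hx⟩ _
  rw [Algebra.adjoin_int]
  show (⟨x, hx⟩ : Subring.closure E) ∈ Subring.closure _
  induction hx using Subring.closure_induction with
  | mem x hx => exact Subring.subset_closure hx
  | zero => exact zero_mem _
  | one => exact one_mem _
  | add x y hx hy h1 h2 => exact add_mem (h1 trivial) (h2 trivial)
  | neg x hx h1 => exact neg_mem (h1 trivial)
  | mul x y hx hy h1 h2 => exact mul_mem (h1 trivial) (h2 trivial)

/-- The automorphisms which preserve the matrices with entries in a subring. -/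
theorem aut_mem {R : Type} [CommRing R] (A : Subring R) (σ : AutM R)
    (h : ∀ i j a b, σ (Matrix.single i j 1) a b ∈ A) (y : Matrix (Fin 2) (Fin 2) R)
    (hy : ∀ i j, y i j ∈ A) (a b : Fin 2) : σ y a b ∈ A := by
  rw [aut_apply]
  exact Subring.sum_mem _ fun i _ => Subring.sum_mem _ fun j _ => mul_mem (hy i j) (h i j a b)

/-- **Homomorphisms to the automorphism group of the matrix algebra of size two over a ring of
positive characteristic are linear data.** -/
theorem linC_pgl (R : Type) [CommRing R] (n : ℕ) (hn : n ≠ 0) (hR : (n : R) = 0) {G : Type}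
    [Group G] (τ : G →* AutM R) : LinC τ := by
  classical
  intro K _ hK f₀
  obtain ⟨f, hf⟩ : ∃ f : K →* AutM R, f = τ.comp f₀ := ⟨_, rfl⟩
  obtain ⟨X', hX, hXf⟩ := Group.fg_iff.1 hK
  -- the finitely generated ring
  obtain ⟨E, hEf, hE⟩ : ∃ E : Set R, E.Finite ∧ ∀ x ∈ X', ∀ i j a b : Fin 2,
      f x (Matrix.single i j 1) a b ∈ E ∧ f x⁻¹ (Matrix.single i j 1) a b ∈ E := by
    refine ⟨⋃ x ∈ X', (Set.range fun q : (Fin 2 × Fin 2) × (Fin 2 × Fin 2) =>
        f x (Matrix.single q.1.1 q.1.2 1) q.2.1 q.2.2) ∪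
        (Set.range fun q : (Fin 2 × Fin 2) × (Fin 2 × Fin 2) =>
        f x⁻¹ (Matrix.single q.1.1 q.1.2 1) q.2.1 q.2.2),
      hXf.biUnion fun x _ => (Set.finite_range _).union (Set.finite_range _),
      fun x hx i j a b => ⟨?_, ?_⟩⟩
    · exact Set.mem_biUnion hx (Or.inl ⟨((i, j), (a, b)), rfl⟩)
    · exact Set.mem_biUnion hx (Or.inr ⟨((i, j), (a, b)), rfl⟩)
  have hft := closure_ft E hEf
  obtain ⟨A, hA⟩ : ∃ A : Subring R, A = Subring.closure E := ⟨_, rfl⟩
  rw [← hA] at hft
  have hEA : ∀ e ∈ E, e ∈ A := by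
    intro e he
    rw [hA]
    exact Subring.subset_closure he
  have hnoeth : IsNoetherianRing A := Algebra.FiniteType.isNoetherianRing ℤ A
  have key : ∀ g : K, g ∈ Subgroup.closure X' →
      (∀ y : Matrix (Fin 2) (Fin 2) R, (∀ i j, y i j ∈ A) → ∀ i j, f g y i j ∈ A) ∧
      (∀ y : Matrix (Fin 2) (Fin 2) R, (∀ i j, y i j ∈ A) → ∀ i j, f g⁻¹ y i j ∈ A) := by
    intro g hg
    induction hg using Subgroup.closure_induction with
    | mem x hx =>
      exact ⟨fun y hy a b => aut_mem A (f x) (fun i j a b => hEA _ (hE x hx i j a b).1) y hy a b,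
        fun y hy a b => aut_mem A (f x⁻¹) (fun i j a b => hEA _ (hE x hx i j a b).2) y hy a b⟩
    | one =>
      rw [inv_one, map_one]
      exact ⟨fun y hy => hy, fun y hy => hy⟩
    | mul a b _ _ ha hb =>
      rw [_root_.mul_inv_rev, map_mul, map_mul]
      exact ⟨fun y hy => ha.1 _ (hb.1 _ hy), fun y hy => hb.2 _ (ha.2 _ hy)⟩
    | inv a _ ha =>
      rw [inv_inv]
      exact ⟨ha.2, ha.1⟩
  have hmem : ∀ (g : K) (i j a b : Fin 2), f g (Matrix.single i j 1) a b ∈ A := by
    intro g i j a b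
    have hg : g ∈ Subgroup.closure X' := by rw [hX]; trivial
    refine (key g hg).1 _ (fun c d => ?_) a b
    by_cases h1 : i = c ∧ j = d
    · rw [h1.1, h1.2, Matrix.single_apply_same]
      exact one_mem A
    · rw [Matrix.single_apply_of_ne (h := h1)]
      exact zero_mem A
  -- the prime ideals
  have hmin : (minimalPrimes A).Finite := minimalPrimes.finite_of_isNoetherianRing A
  have hfin : Finite (minimalPrimes A) := hmin
  have hlift : ∀ P : minimalPrimes A, ∃ Q : Ideal R, Q.IsPrime ∧ Q.comap A.subtype = P.1 :=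
    fun P => Ideal.exists_comap_eq_of_mem_minimalPrimes_of_injective Subtype.val_injective P.1 P.2
  choose Q hQ hQP using hlift
  refine (HasTrees.all fun P : minimalPrimes A => hasTrees_prime R n hn hR (Q P) f).mono
    fun H hH => ⟨Empty, inferInstance, fun i => i.elim, fun γ hγ _ => ?_⟩
  choose m hm0 hm using fun P : minimalPrimes A => hH P γ hγ
  have := Fintype.ofFinite (minimalPrimes A)
  obtain ⟨M, hM⟩ : ∃ M : ℕ, M = ∏ P : minimalPrimes A, m P := ⟨_, rfl⟩
  have hM0 : 0 < M := by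
    rw [hM]
    exact Finset.prod_pos fun P _ => hm0 P
  have h1 : ∀ (P : minimalPrimes A) (y : Matrix (Fin 2) (Fin 2) R) (i j : Fin 2),
      (f (γ ^ M) y - y) i j ∈ Q P := by
    intro P
    obtain ⟨k, hk⟩ := Finset.dvd_prod_of_mem m (Finset.mem_univ P)
    rw [hM, hk]
    clear hk
    induction k with
    | zero =>
      intro y i j
      rw [mul_zero, pow_zero, map_one]
      show (y - y) i j ∈ Q P
      rw [sub_self]
      exact (Q P).zero_mem
    | succ k ih =>
      intro y i j
      rw [mul_add, mul_one, pow_add, map_mul]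
      have e : ((f (γ ^ (m P * k)) * f (γ ^ m P)) y - y) i j =
          (f (γ ^ (m P * k)) (f (γ ^ m P) y) - f (γ ^ m P) y) i j +
            (f (γ ^ m P) y - y) i j := by
        rw [Matrix.sub_apply, Matrix.sub_apply, Matrix.sub_apply, sub_add_sub_cancel]
        rfl
      rw [e]
      exact (Q P).add_mem (ih _ i j) (hm P y i j)
  -- the nilpotent ideal
  obtain ⟨r, hr⟩ := IsNoetherianRing.isNilpotent_nilradical A
  obtain ⟨N, hN⟩ : ∃ N : Ideal R, N = Ideal.map A.subtype (nilradical A) := ⟨_, rfl⟩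
  have hNr : N ^ r = ⊥ := by
    rw [hN, ← Ideal.map_pow, hr]
    exact Ideal.map_bot
  have h2 : ∀ i j a b : Fin 2,
      (f (γ ^ M) (Matrix.single i j 1) - Matrix.single i j (1 : R)) a b ∈ N := by
    intro i j a b
    have h3 : (f (γ ^ M) (Matrix.single i j 1) - Matrix.single i j (1 : R)) a b ∈ A := by
      rw [Matrix.sub_apply]
      refine sub_mem (hmem _ i j a b) ?_
      have h4 := hmem 1 i j a b
      rw [map_one] at h4
      exact h4
    have h5 : (⟨_, h3⟩ : A) ∈ nilradical A := by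
      rw [nilradical, ← Ideal.sInf_minimalPrimes]
      refine Submodule.mem_sInf.2 fun P hP => ?_
      have h6 := h1 ⟨P, hP⟩ (Matrix.single i j 1) a b
      have h7 := hQP ⟨P, hP⟩
      change _ = P at h7
      rw [← h7, Ideal.mem_comap]
      exact h6
    rw [hN]
    exact Ideal.mem_map_of_mem A.subtype h5
  have h3 : ∀ (y : Matrix (Fin 2) (Fin 2) R) (a b : Fin 2), (f (γ ^ M) y - y) a b ∈ N := by
    intro y a b
    have e : (f (γ ^ M) y - y) a b = ∑ i, ∑ j, y i j *
        (f (γ ^ M) (Matrix.single i j 1) - Matrix.single i j (1 : R)) a b := by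
      have e1 := aut_apply (f (γ ^ M)) y a b
      have e2 := aut_apply (1 : AutM R) y a b
      change y a b = _ at e2
      rw [Matrix.sub_apply, e1, e2, ← Finset.sum_sub_distrib]
      refine Finset.sum_congr rfl fun i _ => ?_
      rw [← Finset.sum_sub_distrib]
      refine Finset.sum_congr rfl fun j _ => ?_
      rw [Matrix.sub_apply, mul_sub]
      rfl
    rw [e]
    exact N.sum_mem fun i _ => N.sum_mem fun j _ => N.mul_mem_left _ (h2 i j a b)
  let T : Module.End R (Matrix (Fin 2) (Fin 2) R) :=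
    (f (γ ^ M) : Matrix (Fin 2) (Fin 2) R →ₐ[R] Matrix (Fin 2) (Fin 2) R).toLinearMap
  have hT : ∀ k y, (T ^ k) y = (f (γ ^ M) ^ k) y := by
    intro k
    induction k with
    | zero => intro y; rfl
    | succ k ih =>
      intro y
      rw [pow_succ', pow_succ']
      show T ((T ^ k) y) = f (γ ^ M) ((f (γ ^ M) ^ k) y)
      rw [ih]
      rfl
  have h4 : EIn N (T - 1) := by
    intro y
    have e : (T - 1) y = ∑ i, ∑ j, (f (γ ^ M) y - y) i j • Matrix.single i j (1 : R) := by
      change f (γ ^ M) y - y = _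
      conv_lhs => rw [Matrix.matrix_eq_sum_single (f (γ ^ M) y - y)]
      refine Finset.sum_congr rfl fun i _ => Finset.sum_congr rfl fun j _ => ?_
      rw [Matrix.smul_single, smul_eq_mul, mul_one]
    rw [e]
    exact Submodule.sum_mem _ fun i _ => Submodule.sum_mem _ fun j _ =>
      Submodule.smul_mem_smul (h3 y i j) trivial
  have h5 := end_pow_eq_one n hR N r hNr T h4
  have h6 : f (γ ^ M) ^ (n ^ r) = 1 := AlgEquiv.ext fun y => by
    rw [← hT, h5]
    rfl
  refine isOfFinOrder_iff_pow_eq_one.2 ⟨M * n ^ r, Nat.mul_pos hM0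
    (pow_pos (Nat.pos_of_ne_zero hn) r), ?_⟩
  have h7 : τ (f₀ γ) = f γ := by rw [hf]; rfl
  rw [h7, pow_mul, ← map_pow, h6]

end Pool.Agent.Lib.MP_551055_al.RO
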