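import Mathlib
import Pool.Agent.Lib.MP_551055_al.Trim.BT.Mixed
import Pool.Agent.Lib.MP_551055_al.Trim.GL.Chars
import Pool.Agent.Lib.MP_551055_al.Trim.JK.Planes

/-!
# Finite products of linear data
-/

set_option autoImplicit false

namespace Pool.Agent.Lib.MP_551055_al
end Pool.Agent.Lib.MP_551055_al

namespace Pool.Agent.Lib.MP_551055_al.JK

open Pool.Agent.Lib.MP_551055_al

/-- Finite products of linear data. -/
theorem LinC.pi {G : Type} [Group G] {ι : Type} [Finite ι] {Q : ι → Type} [∀ i, Group (Q i)]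
    (τ : ∀ i, G →* Q i) (h : ∀ i, LinC (τ i)) : LinC (MonoidHom.pi τ) := by
  classical
  cases nonempty_fintype ι
  intro K _ _ f
  refine (GL.HasTrees.all fun i => h i K f).mono fun E hE => ?_
  choose I hI δ hδ using hE
  refine ⟨Σ i, I i, inferInstance, fun x => δ x.1 x.2, fun γ hγ h1 => ?_⟩
  choose m hm e using fun i => isOfFinOrder_iff_pow_eq_one.1 (hδ i γ hγ fun j => h1 ⟨i, j⟩)
  refine isOfFinOrder_iff_pow_eq_one.2 ⟨∏ i, m i, Finset.prod_pos fun i _ => hm i, ?_⟩
  funext i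
  change (τ i (f γ)) ^ (∏ i, m i) = 1
  obtain ⟨d, hd⟩ := Finset.dvd_prod_of_mem m (Finset.mem_univ i)
  rw [hd, pow_mul, e i, one_pow]

end Pool.Agent.Lib.MP_551055_al.JK
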